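import Mathlib

/-!
# Second-order arithmetic, `RCA₀`, and the rainbow Ramsey property of the Rado graph

Definitions only.  We follow S. G. Simpson, *Subsystems of Second Order Arithmetic*.
-/

set_option autoImplicit false

namespace Pool.Agent.Helper63.RCA

/-- An `L₂`-structure: a set `N` of numbers, a set `S` of subsets of `N` (the range of the set
variables), elements `0, 1`, operations `+, ·` and a relation `<`.  Both sorts are non-empty. -/
structure L2Structure where
  /-- the numbers -/
  N : Type
  /-- the sets of numbers that belong to the structure -/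
  S : Set (Set N)
  zero : N
  one : N
  add : N → N → N
  mul : N → N → N
  lt : N → N → Prop
  S_nonempty : S.Nonempty

instance (M : L2Structure) : Zero M.N := ⟨M.zero⟩
instance (M : L2Structure) : One M.N := ⟨M.one⟩
instance (M : L2Structure) : Add M.N := ⟨M.add⟩
instance (M : L2Structure) : Mul M.N := ⟨M.mul⟩
instance (M : L2Structure) : LT M.N := ⟨M.lt⟩

/-- Numerical terms of the language `L₂`; number variables are named by natural numbers. -/
inductive Term : Type
  | var (i : ℕ) : Term
  | zero : Term
  | one : Term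
  | add (s t : Term) : Term
  | mul (s t : Term) : Term

/-- Bounded quantifier formulas of `L₂` (all number quantifiers bounded, no set quantifiers).
Set variables are named by natural numbers.  In `ball t φ`, read `∀ x < t, φ`, the bound variable is
number variable `0` of `φ` and number variable `i` of the outside is variable `i + 1` of `φ`
(de Bruijn indices). -/
inductive BFormula : Type
  | eq (s t : Term) : BFormula
  | lt (s t : Term) : BFormula
  | mem (t : Term) (X : ℕ) : BFormula
  | not (φ : BFormula) : BFormula
  | and (φ ψ : BFormula) : BFormula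
  | ball (t : Term) (φ : BFormula) : BFormula

/-- `cons a v` is the assignment `a, v 0, v 1, …`. -/
def cons {α : Type} (a : α) (v : ℕ → α) : ℕ → α
  | 0 => a
  | n + 1 => v n

/-- The value of a term. -/
def Term.eval {M : L2Structure} (v : ℕ → M.N) : Term → M.N
  | .var i => v i
  | .zero => 0
  | .one => 1
  | .add s t => s.eval v + t.eval v
  | .mul s t => s.eval v * t.eval v

/-- Satisfaction of a bounded quantifier formula under the assignment `v` of the number variables
and `V` of the set variables. -/
def BFormula.Sat {M : L2Structure} (V : ℕ → Set M.N) : BFormula → (ℕ → M.N) → Prop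
  | .eq s t, v => s.eval v = t.eval v
  | .lt s t, v => s.eval v < t.eval v
  | .mem t X, v => t.eval v ∈ V X
  | .not φ, v => ¬ φ.Sat V v
  | .and φ ψ, v => φ.Sat V v ∧ ψ.Sat V v
  | .ball t φ, v => ∀ a : M.N, a < t.eval v → φ.Sat V (cons a v)

/-- `M` is a model of `RCA₀`: the basic axioms, `Σ⁰₁` induction and `Δ⁰₁` comprehension, with number
and set parameters.  A `Σ⁰₁` formula is `∃ b, φ` with `φ` a bounded quantifier formula, a `Π⁰₁`
formula is `∀ b, ψ` with `ψ` a bounded quantifier formula; here `b` is number variable `0`, the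
induction or comprehension variable `a` is number variable `1`, and the remaining number variables
and all set variables are parameters. -/
structure IsModelRCA0 (M : L2Structure) : Prop where
  succ_ne_zero : ∀ n : M.N, n + 1 ≠ 0
  succ_inj : ∀ m n : M.N, m + 1 = n + 1 → m = n
  add_zero : ∀ m : M.N, m + 0 = m
  add_succ : ∀ m n : M.N, m + (n + 1) = (m + n) + 1
  mul_zero : ∀ m : M.N, m * 0 = 0
  mul_succ : ∀ m n : M.N, m * (n + 1) = m * n + m
  not_lt_zero : ∀ m : M.N, ¬ m < 0
  lt_succ_iff : ∀ m n : M.N, m < n + 1 ↔ (m < n ∨ m = n)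
  sigma1_induction : ∀ (φ : BFormula) (v : ℕ → M.N) (V : ℕ → Set M.N), (∀ i, V i ∈ M.S) →
    (∃ b, φ.Sat V (cons b (cons 0 v))) →
    (∀ a, (∃ b, φ.Sat V (cons b (cons a v))) → ∃ b, φ.Sat V (cons b (cons (a + 1) v))) →
    ∀ a, ∃ b, φ.Sat V (cons b (cons a v))
  delta1_comprehension : ∀ (φ ψ : BFormula) (v : ℕ → M.N) (V : ℕ → Set M.N),
    (∀ i, V i ∈ M.S) →
    (∀ a, (∃ b, φ.Sat V (cons b (cons a v))) ↔ (∀ b, ψ.Sat V (cons b (cons a v)))) →
    {a | ∃ b, φ.Sat V (cons b (cons a v))} ∈ M.S

section Rado

variable {M : L2Structure}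

/-- The pairing function `(i,j) = (i+j)² + i`. -/
def pair (i j : M.N) : M.N := (i + j) * (i + j) + i

/-- `w` is of the form `((k,m),n)`. -/
def IsTriple (w : M.N) : Prop := ∃ k m n : M.N, w = pair (pair k m) n

/-- Membership in a coded finite set: `w = ((k,m),n)` codes `{i < k : m(i+1)+1 divides n}`. -/
def InCode (i w : M.N) : Prop :=
  ∃ k m n : M.N, w = pair (pair k m) n ∧ i < k ∧ ∃ q : M.N, n = q * (m * (i + 1) + 1)

/-- `w` is the code of a finite set: the least number of the form `((k,m),n)` that codes it. -/
def IsCode (w : M.N) : Prop :=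
  IsTriple w ∧ ∀ w' : M.N, w' < w → IsTriple w' → ¬ ∀ i, InCode i w' ↔ InCode i w

/-- Adjacency in the graph whose edge relation is the set `E` of (codes of) pairs. -/
def Adj (E : Set M.N) (x y : M.N) : Prop := pair x y ∈ E

/-- `E` is the edge relation of a simple graph on `N`. -/
def IsGraph (E : Set M.N) : Prop := (∀ x, ¬ Adj E x x) ∧ ∀ x y, Adj E x y → Adj E y x

/-- The subgraph of `(N, E)` induced on `X` is a Rado graph: it has the extension property for all
disjoint (coded) finite sets `u, v ⊆ X` of vertices. -/
def IsRado (E X : Set M.N) : Prop :=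
  ∀ u v : M.N, IsCode u → IsCode v → (∀ i, InCode i u → i ∈ X) → (∀ i, InCode i v → i ∈ X) →
    (∀ i, ¬ (InCode i u ∧ InCode i v)) →
    ∃ z ∈ X, ¬ InCode z u ∧ ¬ InCode z v ∧ (∀ i, InCode i u → Adj E z i) ∧
      ∀ i, InCode i v → ¬ Adj E z i

/-- The set `X` is infinite (unbounded). -/
def IsInf (X : Set M.N) : Prop := ∀ b : M.N, ∃ x ∈ X, b < x

/-- `(s, e)` is a finite graph: its vertices are the numbers `i < s`, and `i, j < s` are adjacent if
`(i,j)` is in the finite set coded by `e`; adjacency is irreflexive and symmetric. -/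
def IsFinGraph (s e : M.N) : Prop :=
  IsCode e ∧ (∀ i, i < s → ¬ InCode (pair i i) e) ∧
    ∀ i j, i < s → j < s → InCode (pair i j) e → InCode (pair j i) e

/-- `f` codes an isomorphism from the subgraph of `(N, E)` induced on the finite set coded by `w`
onto the finite graph `(s, e)`: the pairs `(x,i)` in `f` with `x ∈ w` and `i < s` form a bijection
and it preserves and reflects adjacency. -/
def IsIso (E : Set M.N) (s e w f : M.N) : Prop :=
  (∀ x, InCode x w → ∃ i, i < s ∧ InCode (pair x i) f) ∧
  (∀ i, i < s → ∃ x, InCode x w ∧ InCode (pair x i) f) ∧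
  (∀ x y i j, InCode x w → InCode y w → i < s → j < s → InCode (pair x i) f →
    InCode (pair y j) f → ((x = y ↔ i = j) ∧ (Adj E x y ↔ InCode (pair i j) e)))

/-- `w` is (the code of) a copy of the finite graph `(s, e)` in `(N, E)`: a finite vertex set that
induces a subgraph isomorphic to `(s, e)`. -/
def IsCopy (E : Set M.N) (s e w : M.N) : Prop := IsCode w ∧ ∃ f, IsCode f ∧ IsIso E s e w f

/-- `c` (a set of pairs) is a function from `D` to `N`, that is, a coloring of the elements of `D`
into `ω` many colors; the color of `w` is the `y` with `(w,y) ∈ c`. -/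
def IsColoring (D c : Set M.N) : Prop :=
  (∀ z ∈ c, ∃ w ∈ D, ∃ y, z = pair w y) ∧ (∀ w ∈ D, ∃ y, pair w y ∈ c) ∧
    ∀ w y y', pair w y ∈ c → pair w y' ∈ c → y = y'

/-- The coloring `c` is `k`-bounded: there are no `k + 1` distinct elements of the same color. -/
def IsBdd (k : ℕ) (c : Set M.N) : Prop :=
  ∀ y : M.N, ¬ ∃ t : Fin (k + 1) → M.N, Function.Injective t ∧ ∀ i, pair (t i) y ∈ c

/-- `RRP_k` in the structure `M`, for the Rado graph `(N, E)`: for every finite graph `(s, e)` and
every `k`-bounded coloring `c` of its copies there is an infinite set `X` inducing a Rado graph such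
that `c` is injective on the copies contained in `X`. -/
def RRP (M : L2Structure) (k : ℕ) (E : Set M.N) : Prop :=
  ∀ s e : M.N, IsFinGraph s e → ∀ c ∈ M.S, IsColoring {w | IsCopy E s e w} c → IsBdd k c →
    ∃ X ∈ M.S, IsInf X ∧ IsRado E X ∧
      ∀ w w' y : M.N, (∀ i, InCode i w → i ∈ X) → (∀ i, InCode i w' → i ∈ X) →
        pair w y ∈ c → pair w' y ∈ c → w = w'

/-- A computable copy of the Rado graph: `x` and `y` are adjacent if `x` is an element of the finite
set coded by the triple `y`, or the other way round. -/
def StdRado (M : L2Structure) : Set M.N :=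
  {z | ∃ x y : M.N, z = pair x y ∧ (InCode x y ∨ InCode y x)}

end Rado

end Pool.Agent.Helper63.RCA
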