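import Mathlib
import Pool.Agent.Helper63.RCA.Defs

/-!
# Arithmetic in a model of `RCA₀`
-/

set_option autoImplicit false

namespace Pool.Agent.Helper63.RCA

/-- Class version of `IsModelRCA0`. -/
class RCA0 (M : L2Structure) : Prop where
  out : IsModelRCA0 M

section Formulas

variable {M : L2Structure}

/-- renaming of variables in a term -/
def Term.ren (r : ℕ → ℕ) : Term → Term
  | .var i => .var (r i)
  | .zero => .zero
  | .one => .one
  | .add s t => .add (s.ren r) (t.ren r)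
  | .mul s t => .mul (s.ren r) (t.ren r)

/-- lifting of a renaming under a binder -/
def liftR (r : ℕ → ℕ) : ℕ → ℕ
  | 0 => 0
  | n + 1 => r n + 1

/-- renaming of number variables in a formula -/
def BFormula.ren : (ℕ → ℕ) → BFormula → BFormula
  | r, .eq s t => .eq (s.ren r) (t.ren r)
  | r, .lt s t => .lt (s.ren r) (t.ren r)
  | r, .mem t X => .mem (t.ren r) X
  | r, .not φ => .not (φ.ren r)
  | r, .and φ ψ => .and (φ.ren r) (ψ.ren r)
  | r, .ball t φ => .ball (t.ren r) (φ.ren (liftR r))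

/-- renaming of set variables in a formula -/
def BFormula.renS (g : ℕ → ℕ) : BFormula → BFormula
  | .eq s t => .eq s t
  | .lt s t => .lt s t
  | .mem t X => .mem t (g X)
  | .not φ => .not (φ.renS g)
  | .and φ ψ => .and (φ.renS g) (ψ.renS g)
  | .ball t φ => .ball t (φ.renS g)

theorem Term.eval_ren (r : ℕ → ℕ) (t : Term) (v : ℕ → M.N) :
    (t.ren r).eval v = t.eval (fun i => v (r i)) := by
  induction t with
  | var i => rfl
  | zero => rfl
  | one => rfl
  | add s t hs ht => simp only [Term.ren, Term.eval, hs, ht]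
  | mul s t hs ht => simp only [Term.ren, Term.eval, hs, ht]

theorem BFormula.sat_ren (V : ℕ → Set M.N) (φ : BFormula) (r : ℕ → ℕ) (v : ℕ → M.N) :
    (φ.ren r).Sat V v ↔ φ.Sat V (fun i => v (r i)) := by
  induction φ generalizing r v with
  | eq s t => simp only [BFormula.ren, BFormula.Sat, Term.eval_ren]
  | lt s t => simp only [BFormula.ren, BFormula.Sat, Term.eval_ren]
  | mem t X => simp only [BFormula.ren, BFormula.Sat, Term.eval_ren]
  | not φ ih => simp only [BFormula.ren, BFormula.Sat, ih]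
  | and φ ψ ih1 ih2 => simp only [BFormula.ren, BFormula.Sat, ih1, ih2]
  | ball t φ ih =>
    simp only [BFormula.ren, BFormula.Sat, Term.eval_ren, ih]
    refine forall_congr' fun a => imp_congr_right fun _ => ?_
    have : (fun i => cons a v (liftR r i)) = cons a (fun i => v (r i)) := by
      funext i
      cases i <;> rfl
    rw [this]

theorem BFormula.sat_renS (V : ℕ → Set M.N) (φ : BFormula) (g : ℕ → ℕ) (v : ℕ → M.N) :
    (φ.renS g).Sat V v ↔ φ.Sat (fun i => V (g i)) v := by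
  induction φ generalizing v with
  | eq s t => rfl
  | lt s t => rfl
  | mem t X => rfl
  | not φ ih => simp only [BFormula.renS, BFormula.Sat, ih]
  | and φ ψ ih1 ih2 => simp only [BFormula.renS, BFormula.Sat, ih1, ih2]
  | ball t φ ih => simp only [BFormula.renS, BFormula.Sat, ih]

/-- `f` is given by a term -/
def IsT (f : (ℕ → M.N) → M.N) : Prop := ∃ t : Term, ∀ v, f v = t.eval v

/-- `P` is given by a bounded quantifier formula with set parameters -/
def D0 (P : (ℕ → M.N) → Prop) : Prop :=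
  ∃ (φ : BFormula) (V : ℕ → Set M.N), (∀ i, V i ∈ M.S) ∧ ∀ v, P v ↔ φ.Sat V v

theorem IsT.var (i : ℕ) : IsT (M := M) fun v => v i := ⟨.var i, fun _ => rfl⟩
theorem IsT.zero : IsT (M := M) fun _ => 0 := ⟨.zero, fun _ => rfl⟩
theorem IsT.one : IsT (M := M) fun _ => 1 := ⟨.one, fun _ => rfl⟩
theorem IsT.add {f g : (ℕ → M.N) → M.N} (hf : IsT f) (hg : IsT g) : IsT fun v => f v + g v := by
  obtain ⟨s, hs⟩ := hf
  obtain ⟨t, ht⟩ := hg
  exact ⟨.add s t, fun v => by simp only [hs, ht, Term.eval]⟩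
theorem IsT.mul {f g : (ℕ → M.N) → M.N} (hf : IsT f) (hg : IsT g) : IsT fun v => f v * g v := by
  obtain ⟨s, hs⟩ := hf
  obtain ⟨t, ht⟩ := hg
  exact ⟨.mul s t, fun v => by simp only [hs, ht, Term.eval]⟩
theorem IsT.pair {f g : (ℕ → M.N) → M.N} (hf : IsT f) (hg : IsT g) :
    IsT fun v => pair (f v) (g v) :=
  ((hf.add hg).mul (hf.add hg)).add hf

theorem D0.eq {f g : (ℕ → M.N) → M.N} (hf : IsT f) (hg : IsT g) : D0 fun v => f v = g v := by
  obtain ⟨s, hs⟩ := hf
  obtain ⟨t, ht⟩ := hg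
  obtain ⟨A, hA⟩ := M.S_nonempty
  exact ⟨.eq s t, fun _ => A, fun _ => hA, fun v => by simp only [hs, ht, BFormula.Sat]⟩
theorem D0.lt {f g : (ℕ → M.N) → M.N} (hf : IsT f) (hg : IsT g) : D0 fun v => f v < g v := by
  obtain ⟨s, hs⟩ := hf
  obtain ⟨t, ht⟩ := hg
  obtain ⟨A, hA⟩ := M.S_nonempty
  exact ⟨.lt s t, fun _ => A, fun _ => hA, fun v => by simp only [hs, ht, BFormula.Sat]⟩
theorem D0.mem {f : (ℕ → M.N) → M.N} (hf : IsT f) {A : Set M.N} (hA : A ∈ M.S) :
    D0 fun v => f v ∈ A := by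
  obtain ⟨s, hs⟩ := hf
  exact ⟨.mem s 0, fun _ => A, fun _ => hA, fun v => by simp only [hs, BFormula.Sat]⟩
theorem D0.not {P : (ℕ → M.N) → Prop} (hP : D0 P) : D0 fun v => ¬ P v := by
  obtain ⟨φ, V, hV, h⟩ := hP
  exact ⟨.not φ, V, hV, fun v => by simp only [h, BFormula.Sat]⟩
theorem D0.and {P Q : (ℕ → M.N) → Prop} (hP : D0 P) (hQ : D0 Q) : D0 fun v => P v ∧ Q v := by
  obtain ⟨φ, V, hV, h⟩ := hP
  obtain ⟨ψ, W, hW, k⟩ := hQ
  refine ⟨.and (φ.renS fun i => 2 * i) (ψ.renS fun i => 2 * i + 1),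
    fun i => if i % 2 = 0 then V (i / 2) else W (i / 2), fun i => ?_, fun v => ?_⟩
  · dsimp only
    split_ifs
    · exact hV _
    · exact hW _
  · simp only [BFormula.Sat, BFormula.sat_renS, h, k]
    have e1 : ∀ i : ℕ, (2 * i) % 2 = 0 := by omega
    have e2 : ∀ i : ℕ, (2 * i) / 2 = i := by omega
    have e3 : ∀ i : ℕ, ¬ (2 * i + 1) % 2 = 0 := by omega
    have e4 : ∀ i : ℕ, (2 * i + 1) / 2 = i := by omega
    simp only [e1, e2, e3, e4, if_true, if_false]
theorem D0.congr {P Q : (ℕ → M.N) → Prop} (hP : D0 P) (h : ∀ v, Q v ↔ P v) : D0 Q := by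
  obtain ⟨φ, V, hV, k⟩ := hP
  exact ⟨φ, V, hV, fun v => (h v).trans (k v)⟩
theorem D0.or {P Q : (ℕ → M.N) → Prop} (hP : D0 P) (hQ : D0 Q) : D0 fun v => P v ∨ Q v :=
  ((hP.not).and hQ.not).not.congr fun v => by tauto
theorem D0.imp {P Q : (ℕ → M.N) → Prop} (hP : D0 P) (hQ : D0 Q) : D0 fun v => P v → Q v :=
  (hP.and hQ.not).not.congr fun v => by tauto
theorem D0.ball {f : (ℕ → M.N) → M.N} (hf : IsT f) {P : (ℕ → M.N) → Prop} (hP : D0 P) :
    D0 fun v => ∀ a, a < f v → P (cons a v) := by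
  obtain ⟨s, hs⟩ := hf
  obtain ⟨φ, V, hV, k⟩ := hP
  exact ⟨.ball s φ, V, hV, fun v => by simp only [BFormula.Sat, hs, k]⟩
theorem D0.bex {f : (ℕ → M.N) → M.N} (hf : IsT f) {P : (ℕ → M.N) → Prop} (hP : D0 P) :
    D0 fun v => ∃ a, a < f v ∧ P (cons a v) :=
  (D0.ball hf hP.not).not.congr fun v => by push Not; rfl
theorem D0.ren {P : (ℕ → M.N) → Prop} (hP : D0 P) (r : ℕ → ℕ) :
    D0 fun v => P fun i => v (r i) := by
  obtain ⟨φ, V, hV, k⟩ := hP
  exact ⟨φ.ren r, V, hV, fun v => by rw [BFormula.sat_ren]; exact k _⟩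

variable [hM : RCA0 M]

theorem sigma_ind {P : (ℕ → M.N) → Prop} (hP : D0 P) (v : ℕ → M.N)
    (h0 : ∃ b, P (cons b (cons 0 v)))
    (hs : ∀ a, (∃ b, P (cons b (cons a v))) → ∃ b, P (cons b (cons (a + 1) v))) :
    ∀ a, ∃ b, P (cons b (cons a v)) := by
  obtain ⟨φ, V, hV, k⟩ := hP
  simp only [k] at h0 hs ⊢
  exact hM.out.sigma1_induction φ v V hV h0 hs

theorem d0_ind {P : (ℕ → M.N) → Prop} (hP : D0 P) (v : ℕ → M.N)
    (h0 : P (cons 0 v)) (hs : ∀ a, P (cons a v) → P (cons (a + 1) v)) : ∀ a, P (cons a v) := by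
  have h := sigma_ind (hP.ren (· + 1)) v ⟨0, h0⟩ (fun a ⟨b, hb⟩ => ⟨0, hs a hb⟩)
  intro a
  obtain ⟨b, hb⟩ := h a
  exact hb

theorem delta_comp {P Q : (ℕ → M.N) → Prop} (hP : D0 P) (hQ : D0 Q) (v : ℕ → M.N)
    (h : ∀ a, (∃ b, P (cons b (cons a v))) ↔ ∀ b, Q (cons b (cons a v))) :
    {a | ∃ b, P (cons b (cons a v))} ∈ M.S := by
  obtain ⟨φ, V, hV, k⟩ := hP
  obtain ⟨ψ, W, hW, l⟩ := hQ
  let U : ℕ → Set M.N := fun i => if i % 2 = 0 then V (i / 2) else W (i / 2)
  have hU : ∀ i, U i ∈ M.S := by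
    intro i
    dsimp only [U]
    split_ifs
    · exact hV _
    · exact hW _
  have e1 : ∀ i : ℕ, (2 * i) % 2 = 0 := by omega
  have e2 : ∀ i : ℕ, (2 * i) / 2 = i := by omega
  have e3 : ∀ i : ℕ, ¬ (2 * i + 1) % 2 = 0 := by omega
  have e4 : ∀ i : ℕ, (2 * i + 1) / 2 = i := by omega
  have hφ : ∀ v, (φ.renS fun i => 2 * i).Sat U v ↔ P v := by
    intro v
    rw [BFormula.sat_renS, k]
    simp only [U, e1, e2, if_true]
  have hψ : ∀ v, (ψ.renS fun i => 2 * i + 1).Sat U v ↔ Q v := by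
    intro v
    rw [BFormula.sat_renS, l]
    simp only [U, e3, e4, if_false]
  have := hM.out.delta1_comprehension (φ.renS fun i => 2 * i) (ψ.renS fun i => 2 * i + 1) v U hU
    (by simp only [hφ, hψ]; exact h)
  simpa only [hφ] using this

end Formulas

section Semiring

variable {M : L2Structure} [hM : RCA0 M]

theorem n_add_zero (a : M.N) : a + 0 = a := hM.out.add_zero a
theorem n_add_succ (a b : M.N) : a + (b + 1) = (a + b) + 1 := hM.out.add_succ a b
theorem n_mul_zero (a : M.N) : a * 0 = 0 := hM.out.mul_zero a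
theorem n_mul_succ (a b : M.N) : a * (b + 1) = a * b + a := hM.out.mul_succ a b
theorem n_succ_ne (a : M.N) : a + 1 ≠ 0 := hM.out.succ_ne_zero a
theorem n_succ_inj {a b : M.N} (h : a + 1 = b + 1) : a = b := hM.out.succ_inj a b h

theorem n_zero_add (a : M.N) : 0 + a = a := by
  refine d0_ind (P := fun v => 0 + v 0 = v 0) (D0.eq (IsT.zero.add (IsT.var 0)) (IsT.var 0))
    (fun _ => 0) (n_add_zero 0) ?_ a
  intro a h
  simp only [cons] at h ⊢
  rw [n_add_succ, h]

theorem n_succ_add (a b : M.N) : (a + 1) + b = (a + b) + 1 := by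
  refine d0_ind (P := fun v => (v 1 + 1) + v 0 = (v 1 + v 0) + 1)
    (D0.eq (((IsT.var 1).add IsT.one).add (IsT.var 0)) (((IsT.var 1).add (IsT.var 0)).add IsT.one))
    (fun _ => a) ?_ ?_ b
  · simp only [cons, n_add_zero]
  · intro b h
    simp only [cons] at h ⊢
    rw [n_add_succ, h, n_add_succ]

theorem n_add_comm (a b : M.N) : a + b = b + a := by
  refine d0_ind (P := fun v => v 1 + v 0 = v 0 + v 1)
    (D0.eq ((IsT.var 1).add (IsT.var 0)) ((IsT.var 0).add (IsT.var 1)))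
    (fun _ => a) ?_ ?_ b
  · simp only [cons, n_add_zero, n_zero_add]
  · intro b h
    simp only [cons] at h ⊢
    rw [n_add_succ, h, n_succ_add]

theorem n_add_assoc (a b c : M.N) : a + b + c = a + (b + c) := by
  refine d0_ind (P := fun v => v 1 + v 2 + v 0 = v 1 + (v 2 + v 0))
    (D0.eq (((IsT.var 1).add (IsT.var 2)).add (IsT.var 0))
      ((IsT.var 1).add ((IsT.var 2).add (IsT.var 0))))
    (cons a (cons b fun _ => 0)) ?_ ?_ c
  · simp only [cons, n_add_zero]
  · intro c h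
    simp only [cons] at h ⊢
    rw [n_add_succ, h, n_add_succ, n_add_succ]

theorem n_zero_mul (a : M.N) : 0 * a = 0 := by
  refine d0_ind (P := fun v => 0 * v 0 = 0) (D0.eq (IsT.zero.mul (IsT.var 0)) IsT.zero)
    (fun _ => 0) (n_mul_zero 0) ?_ a
  intro a h
  simp only [cons] at h ⊢
  rw [n_mul_succ, h, n_add_zero]

theorem n_succ_mul (a b : M.N) : (a + 1) * b = a * b + b := by
  refine d0_ind (P := fun v => (v 1 + 1) * v 0 = v 1 * v 0 + v 0)
    (D0.eq (((IsT.var 1).add IsT.one).mul (IsT.var 0))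
      (((IsT.var 1).mul (IsT.var 0)).add (IsT.var 0)))
    (fun _ => a) ?_ ?_ b
  · simp only [cons, n_mul_zero, n_add_zero]
  · intro b h
    simp only [cons] at h ⊢
    rw [n_mul_succ, h, n_mul_succ, n_add_succ (a * b + b) a, n_add_succ (a * b + a) b,
      n_add_assoc (a * b) b a, n_add_comm b a, ← n_add_assoc (a * b) a b]

theorem n_mul_comm (a b : M.N) : a * b = b * a := by
  refine d0_ind (P := fun v => v 1 * v 0 = v 0 * v 1)
    (D0.eq ((IsT.var 1).mul (IsT.var 0)) ((IsT.var 0).mul (IsT.var 1)))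
    (fun _ => a) ?_ ?_ b
  · simp only [cons, n_mul_zero, n_zero_mul]
  · intro b h
    simp only [cons] at h ⊢
    rw [n_mul_succ, h, n_succ_mul]

theorem n_mul_add (a b c : M.N) : a * (b + c) = a * b + a * c := by
  refine d0_ind (P := fun v => v 1 * (v 2 + v 0) = v 1 * v 2 + v 1 * v 0)
    (D0.eq ((IsT.var 1).mul ((IsT.var 2).add (IsT.var 0)))
      (((IsT.var 1).mul (IsT.var 2)).add ((IsT.var 1).mul (IsT.var 0))))
    (cons a (cons b fun _ => 0)) ?_ ?_ c
  · simp only [cons, n_add_zero, n_mul_zero]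
  · intro c h
    simp only [cons] at h ⊢
    rw [n_add_succ, n_mul_succ, h, n_mul_succ, n_add_assoc]

theorem n_mul_assoc (a b c : M.N) : a * b * c = a * (b * c) := by
  refine d0_ind (P := fun v => v 1 * v 2 * v 0 = v 1 * (v 2 * v 0))
    (D0.eq (((IsT.var 1).mul (IsT.var 2)).mul (IsT.var 0))
      ((IsT.var 1).mul ((IsT.var 2).mul (IsT.var 0))))
    (cons a (cons b fun _ => 0)) ?_ ?_ c
  · simp only [cons, n_mul_zero]
  · intro c h
    simp only [cons] at h ⊢
    rw [n_mul_succ, h, n_mul_succ, n_mul_add]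

theorem n_mul_one (a : M.N) : a * 1 = a := by
  have := n_mul_succ a 0
  rwa [n_zero_add, n_mul_zero, n_zero_add] at this

instance : CommSemiring M.N where
  add := (· + ·)
  zero := 0
  mul := (· * ·)
  one := 1
  add_assoc := n_add_assoc
  zero_add := n_zero_add
  add_zero := n_add_zero
  add_comm := n_add_comm
  mul_assoc := n_mul_assoc
  one_mul a := by rw [n_mul_comm, n_mul_one]
  mul_one := n_mul_one
  zero_mul := n_zero_mul
  mul_zero := n_mul_zero
  left_distrib := n_mul_add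
  right_distrib a b c := by rw [n_mul_comm, n_mul_add, n_mul_comm c a, n_mul_comm c b]
  mul_comm := n_mul_comm
  nsmul := nsmulRec
  npow := npowRec

theorem n_add_left_cancel {a b c : M.N} (h : a + b = a + c) : b = c := by
  have := d0_ind (P := fun v => v 0 + v 1 = v 0 + v 2 → v 1 = v 2)
    (D0.imp (D0.eq ((IsT.var 0).add (IsT.var 1)) ((IsT.var 0).add (IsT.var 2)))
      (D0.eq (IsT.var 1) (IsT.var 2))) (cons b (cons c fun _ => 0)) ?_ ?_ a
  · exact this h
  · simp only [cons]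
    intro h
    rwa [zero_add, zero_add] at h
  · intro a ih
    simp only [cons] at ih ⊢
    intro h
    apply ih
    rw [n_succ_add, n_succ_add] at h
    exact n_succ_inj h

theorem n_eq_zero_or_succ (a : M.N) : ∃ b, a = 0 ∨ a = b + 1 := by
  refine sigma_ind (P := fun v => v 1 = 0 ∨ v 1 = v 0 + 1)
    (D0.or (D0.eq (IsT.var 1) IsT.zero) (D0.eq (IsT.var 1) ((IsT.var 0).add IsT.one)))
    (fun _ => 0) ⟨0, Or.inl rfl⟩ ?_ a
  intro a _
  exact ⟨a, Or.inr rfl⟩

theorem n_lt_succ (a b : M.N) : a < b + 1 ↔ (a < b ∨ a = b) := hM.out.lt_succ_iff a b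

theorem n_lt_iff (a b : M.N) : a < b ↔ ∃ c, a + (c + 1) = b := by
  constructor
  · have := sigma_ind (P := fun v => v 2 < v 1 → v 2 + (v 0 + 1) = v 1)
      (D0.imp (D0.lt (IsT.var 2) (IsT.var 1))
        (D0.eq ((IsT.var 2).add ((IsT.var 0).add IsT.one)) (IsT.var 1)))
      (fun _ => a) ⟨0, ?_⟩ ?_ b
    · obtain ⟨c, hc⟩ := this
      simp only [cons] at hc
      exact fun h => ⟨c, hc h⟩
    · simp only [cons]
      intro h
      exact absurd h (hM.out.not_lt_zero _)
    · rintro b ⟨c, hc⟩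
      simp only [cons] at hc
      by_cases h : a < b
      · refine ⟨c + 1, fun _ => ?_⟩
        simp only [cons]
        rw [← hc h]
        ring
      · refine ⟨0, fun h2 => ?_⟩
        simp only [cons] at h2 ⊢
        rcases (n_lt_succ a b).mp h2 with h3 | h3
        · exact absurd h3 h
        · rw [h3, zero_add]
  · rintro ⟨c, rfl⟩
    refine d0_ind (P := fun v => v 1 < v 1 + (v 0 + 1))
      (D0.lt (IsT.var 1) ((IsT.var 1).add ((IsT.var 0).add IsT.one))) (fun _ => a) ?_ ?_ c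
    · simp only [cons]
      rw [zero_add, n_lt_succ]
      exact Or.inr rfl
    · intro c h
      simp only [cons] at h ⊢
      rw [n_add_succ, n_lt_succ]
      exact Or.inl h

theorem n_lt_irrefl (a : M.N) : ¬ a < a := by
  rw [n_lt_iff]
  rintro ⟨c, hc⟩
  have : a + (c + 1) = a + 0 := by rw [hc, add_zero]
  exact n_succ_ne c (n_add_left_cancel this)

theorem n_lt_trans {a b c : M.N} (h1 : a < b) (h2 : b < c) : a < c := by
  rw [n_lt_iff] at *
  obtain ⟨x, rfl⟩ := h1
  obtain ⟨y, rfl⟩ := h2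
  exact ⟨x + 1 + y, by ring⟩

theorem n_trichotomy (a b : M.N) : a < b ∨ a = b ∨ b < a := by
  rcases n_eq_zero_or_succ a with ⟨_, -⟩
  refine d0_ind (P := fun v => v 1 < v 0 ∨ v 1 = v 0 ∨ v 0 < v 1)
    (D0.or (D0.lt (IsT.var 1) (IsT.var 0)) (D0.or (D0.eq (IsT.var 1) (IsT.var 0))
      (D0.lt (IsT.var 0) (IsT.var 1)))) (fun _ => a) ?_ ?_ b
  · simp only [cons]
    obtain ⟨b, h | h⟩ := n_eq_zero_or_succ a
    · exact Or.inr (Or.inl h)
    · refine Or.inr (Or.inr ?_)
      rw [n_lt_iff]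
      exact ⟨b, by rw [h, zero_add]⟩
  · intro b h
    simp only [cons] at h ⊢
    rcases h with h | h | h
    · exact Or.inl ((n_lt_succ a b).mpr (Or.inl h))
    · exact Or.inl ((n_lt_succ a b).mpr (Or.inr h))
    · rw [n_lt_iff] at h
      obtain ⟨c, hc⟩ := h
      obtain ⟨d, h | h⟩ := n_eq_zero_or_succ c
      · subst h
        rw [zero_add] at hc
        exact Or.inr (Or.inl hc.symm)
      · subst h
        refine Or.inr (Or.inr ?_)
        rw [n_lt_iff]
        exact ⟨d, by rw [← hc]; ring⟩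

noncomputable instance : LinearOrder M.N where
  le a b := a < b ∨ a = b
  lt := (· < ·)
  le_refl a := Or.inr rfl
  le_trans a b c h1 h2 := by
    rcases h1 with h1 | rfl
    · rcases h2 with h2 | rfl
      · exact Or.inl (n_lt_trans h1 h2)
      · exact Or.inl h1
    · exact h2
  lt_iff_le_not_ge a b := by
    constructor
    · intro h
      refine ⟨Or.inl h, ?_⟩
      rintro (h2 | rfl)
      · exact n_lt_irrefl _ (n_lt_trans h h2)
      · exact n_lt_irrefl _ h
    · rintro ⟨h1 | rfl, h2⟩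
      · exact h1
      · exact absurd (Or.inr rfl) h2
  le_antisymm a b h1 h2 := by
    rcases h1 with h1 | rfl
    · rcases h2 with h2 | rfl
      · exact absurd (n_lt_trans h1 h2) (n_lt_irrefl _)
      · rfl
    · rfl
  le_total a b := by
    rcases n_trichotomy a b with h | h | h
    · exact Or.inl (Or.inl h)
    · exact Or.inl (Or.inr h)
    · exact Or.inr (Or.inl h)
  toDecidableLE := Classical.decRel _

theorem n_le_iff (a b : M.N) : a ≤ b ↔ ∃ c, b = a + c := by
  constructor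
  · rintro (h | h)
    · obtain ⟨c, hc⟩ := (n_lt_iff a b).mp h
      exact ⟨c + 1, hc.symm⟩
    · exact ⟨0, by rw [h, add_zero]⟩
  · rintro ⟨c, rfl⟩
    obtain ⟨d, h | h⟩ := n_eq_zero_or_succ c
    · subst h
      exact Or.inr (add_zero a).symm
    · subst h
      exact Or.inl ((n_lt_iff _ _).mpr ⟨d, rfl⟩)

instance : IsCancelAdd M.N where
  add_left_cancel a b c h := n_add_left_cancel h
  add_right_cancel a b c h := by
    have h : b + a = c + a := h
    rw [add_comm b a, add_comm c a] at h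
    exact n_add_left_cancel h

instance : CanonicallyOrderedAdd M.N where
  exists_add_of_le h := (n_le_iff _ _).mp h
  le_self_add a b := (n_le_iff _ _).mpr ⟨b, rfl⟩
  le_add_self a b := (n_le_iff _ _).mpr ⟨b, add_comm _ _⟩

instance : IsOrderedAddMonoid M.N where
  add_le_add_left a b h c := by
    obtain ⟨d, rfl⟩ := (n_le_iff _ _).mp h
    exact (n_le_iff _ _).mpr ⟨d, by ring⟩

instance : Nontrivial M.N := ⟨⟨0, 1, fun h => n_succ_ne (M := M) 0 (by rw [zero_add]; exact h.symm)⟩⟩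

theorem n_mul_lt_mul {a b c : M.N} (h : a < b) (hc : 0 < c) : c * a < c * b := by
  obtain ⟨d, rfl⟩ := (n_lt_iff _ _).mp h
  obtain ⟨e, h2 | h2⟩ := n_eq_zero_or_succ c
  · exact absurd h2 hc.ne'
  · subst h2
    rw [n_lt_iff]
    exact ⟨e * d + e + d, by ring⟩

instance : IsStrictOrderedRing M.N where
  zero_le_one := (n_le_iff _ _).mpr ⟨1, (zero_add _).symm⟩
  le_of_add_le_add_left a b c h := by
    obtain ⟨d, hd⟩ := (n_le_iff _ _).mp h
    rw [add_assoc] at hd
    exact (n_le_iff _ _).mpr ⟨d, n_add_left_cancel hd⟩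
  mul_lt_mul_of_pos_left _ ha _ _ h := n_mul_lt_mul h ha
  mul_lt_mul_of_pos_right a ha b c h := by
    show b * a < c * a
    rw [mul_comm b a, mul_comm c a]
    exact n_mul_lt_mul h ha

end Semiring

end Pool.Agent.Helper63.RCA
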