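import Mathlib
import Pool.Agent.Helper63.RCA.Arith

/-!
# Recursive relations and functions inside a model of `RCA₀`
-/

set_option autoImplicit false

namespace Pool.Agent.Helper63.RCA

section Pairing

variable {M : L2Structure} [hM : RCA0 M]

theorem n_lt_add_one_iff (a b : M.N) : a < b + 1 ↔ a ≤ b := by
  rw [n_lt_succ]; rfl

theorem n_add_one_le_iff (a b : M.N) : a + 1 ≤ b ↔ a < b := by
  rw [← n_lt_add_one_iff]
  exact add_lt_add_iff_right 1

theorem n_le_mul_self (a : M.N) : a ≤ a * a := by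
  obtain ⟨b, rfl | rfl⟩ := n_eq_zero_or_succ a
  · simp
  · rw [n_le_iff]
    exact ⟨(b + 1) * b, by ring⟩

theorem le_pair_left (i j : M.N) : i ≤ pair i j := by
  unfold pair
  exact le_add_self

theorem le_pair_right (i j : M.N) : j ≤ pair i j := by
  unfold pair
  calc j ≤ i + j := le_add_self
    _ ≤ (i + j) * (i + j) := n_le_mul_self _
    _ ≤ _ := le_self_add

theorem pair_lt_aux {i j i' j' : M.N} (h : i + j < i' + j') : pair i j < pair i' j' := by
  unfold pair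
  obtain ⟨c, hc⟩ := (n_lt_iff _ _).mp h
  rw [← hc, n_lt_iff]
  refine ⟨i + j + j + c + c * (i + j + (c + 1)) + (i + j) * c + i', ?_⟩
  ring

theorem pair_inj {i j i' j' : M.N} (h : pair i j = pair i' j') : i = i' ∧ j = j' := by
  rcases lt_trichotomy (i + j) (i' + j') with h1 | h1 | h1
  · exact absurd h (pair_lt_aux h1).ne
  · unfold pair at h
    rw [h1] at h
    have h2 := add_left_cancel h
    subst h2
    exact ⟨rfl, add_left_cancel h1⟩
  · exact absurd h (pair_lt_aux h1).ne'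

theorem pair_lt_pair {i j i' j' : M.N} (h1 : i < i') (h2 : j < j') : pair i j < pair i' j' :=
  pair_lt_aux (add_lt_add h1 h2)

end Pairing

/-- Types whose elements are encoded by numbers of the model. -/
class Cod (M : outParam L2Structure) [RCA0 M] (α : Type) where
  enc : α → M.N
  inj : Function.Injective enc
  range : {x | ∃ a, enc a = x} ∈ M.S

section Defs

variable {M : L2Structure} [hM : RCA0 M]

theorem D0.set {P : (ℕ → M.N) → Prop} (hP : D0 P) (v : ℕ → M.N) : {a | P (cons a v)} ∈ M.S := by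
  have := delta_comp (hP.ren (· + 1)) (hP.ren (· + 1)) v (fun a => ⟨fun ⟨_, h⟩ _ => h,
    fun h => ⟨0, h 0⟩⟩)
  convert this using 1
  ext a
  exact ⟨fun h => ⟨0, h⟩, fun ⟨_, h⟩ => h⟩

theorem univ_mem : (Set.univ : Set M.N) ∈ M.S := by
  have := D0.set (M := M) (D0.eq IsT.zero IsT.zero) (fun _ => 0)
  simpa using this

variable {α β γ : Type} [Cod M α] [Cod M β] [Cod M γ]

/-- the set of codes of elements of `α` -/
def rg (α : Type) [Cod M α] : Set M.N := {x | ∃ a : α, Cod.enc a = x}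

/-- the set of codes of elements of `α` satisfying `P` -/
def ps (P : α → Prop) : Set M.N := {x | ∃ a, Cod.enc a = x ∧ P a}

/-- the graph of a function on codes -/
def gr (F : α → β) : Set M.N := {x | ∃ a, x = pair (Cod.enc a) (Cod.enc (F a))}

/-- recursive (in the sense of the model) predicates -/
def Rec (P : α → Prop) : Prop := ps P ∈ M.S

/-- recursive (in the sense of the model) functions -/
def RecF (F : α → β) : Prop := gr F ∈ M.S

theorem rg_mem : rg (M := M) α ∈ M.S := Cod.range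

theorem mem_ps {P : α → Prop} {a : α} : Cod.enc a ∈ ps P ↔ P a := by
  constructor
  · rintro ⟨b, h1, h2⟩
    rwa [← Cod.inj h1]
  · intro h; exact ⟨a, rfl, h⟩

theorem mem_gr {F : α → β} {a : α} {y : M.N} :
    pair (Cod.enc a) y ∈ gr F ↔ y = Cod.enc (F a) := by
  constructor
  · rintro ⟨b, h1⟩
    obtain ⟨h2, h3⟩ := pair_inj h1
    rw [Cod.inj h2]
    exact h3
  · rintro rfl
    exact ⟨a, rfl⟩

theorem gr_dom {F : α → β} {x y : M.N} (h : pair x y ∈ gr F) :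
    ∃ a, x = Cod.enc a ∧ y = Cod.enc (F a) := by
  obtain ⟨b, h1⟩ := h
  obtain ⟨h2, h3⟩ := pair_inj h1
  exact ⟨b, h2, h3⟩

instance : Cod M M.N where
  enc := id
  inj := Function.injective_id
  range := by
    have : {x : M.N | ∃ a : M.N, id a = x} = Set.univ := by
      ext x; simp
    rw [this]
    exact univ_mem

theorem enc_N (x : M.N) : (Cod.enc x : M.N) = x := rfl

instance : Cod M (α × β) where
  enc p := pair (Cod.enc p.1) (Cod.enc p.2)
  inj := by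
    rintro ⟨a, b⟩ ⟨a', b'⟩ h
    obtain ⟨h1, h2⟩ := pair_inj h
    rw [Prod.mk.injEq]
    exact ⟨Cod.inj h1, Cod.inj h2⟩
  range := by
    have := D0.set (M := M) (P := fun v => ∃ a, a < v 0 + 1 ∧ ∃ b, b < v 0 + 1 ∧
        (v 0 = pair a b ∧ a ∈ rg (M := M) α ∧ b ∈ rg (M := M) β))
      (D0.bex (P := fun v => ∃ b, b < v 1 + 1 ∧
        (v 1 = pair (v 0) b ∧ v 0 ∈ rg (M := M) α ∧ b ∈ rg (M := M) β))
        ((IsT.var 0).add IsT.one)
        (D0.bex (P := fun v => v 2 = pair (v 1) (v 0) ∧ v 1 ∈ rg (M := M) α ∧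
          v 0 ∈ rg (M := M) β) ((IsT.var 1).add IsT.one)
          ((D0.eq (IsT.var 2) ((IsT.var 1).pair (IsT.var 0))).and
            ((D0.mem (IsT.var 1) rg_mem).and (D0.mem (IsT.var 0) rg_mem))))) (fun _ => 0)
    convert this using 1
    ext x
    simp only [Set.mem_ofPred_eq, cons]
    constructor
    · rintro ⟨⟨a, b⟩, rfl⟩
      refine ⟨Cod.enc a, ?_, Cod.enc b, ?_, rfl, ⟨a, rfl⟩, ⟨b, rfl⟩⟩
      · exact (n_lt_add_one_iff _ _).mpr (le_pair_left _ _)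
      · exact (n_lt_add_one_iff _ _).mpr (le_pair_right _ _)
    · rintro ⟨_, -, _, -, rfl, ⟨a, rfl⟩, ⟨b, rfl⟩⟩
      exact ⟨(a, b), rfl⟩

theorem enc_pair (a : α) (b : β) : (Cod.enc (a, b) : M.N) = pair (Cod.enc a) (Cod.enc b) := rfl

theorem Rec.comp {P : β → Prop} (hP : Rec P) {F : α → β} (hF : RecF F) :
    Rec fun a => P (F a) := by
  have h := delta_comp (M := M)
    (P := fun v => v 1 ∈ rg (M := M) α ∧ pair (v 1) (v 0) ∈ gr F ∧ v 0 ∈ ps P)
    (Q := fun v => v 1 ∈ rg (M := M) α ∧ (pair (v 1) (v 0) ∈ gr F → v 0 ∈ ps P))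
    ((D0.mem (IsT.var 1) rg_mem).and ((D0.mem ((IsT.var 1).pair (IsT.var 0)) hF).and
      (D0.mem (IsT.var 0) hP)))
    ((D0.mem (IsT.var 1) rg_mem).and ((D0.mem ((IsT.var 1).pair (IsT.var 0)) hF).imp
      (D0.mem (IsT.var 0) hP))) (fun _ => 0) (by
      intro x
      simp only [cons]
      constructor
      · rintro ⟨y, ⟨a, rfl⟩, h2, h3⟩ z
        refine ⟨⟨a, rfl⟩, fun h4 => ?_⟩
        rw [mem_gr] at h2 h4
        rw [h4, ← h2]
        exact h3
      · intro h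
        obtain ⟨a, rfl⟩ := (h 0).1
        exact ⟨Cod.enc (F a), ⟨a, rfl⟩, mem_gr.mpr rfl, (h _).2 (mem_gr.mpr rfl)⟩)
  unfold Rec
  convert h using 1
  ext x
  simp only [cons, Set.mem_ofPred_eq]
  constructor
  · rintro ⟨a, rfl, h⟩
    exact ⟨Cod.enc (F a), ⟨a, rfl⟩, mem_gr.mpr rfl, mem_ps.mpr h⟩
  · rintro ⟨y, ⟨a, rfl⟩, h2, h3⟩
    rw [mem_gr] at h2
    rw [h2, mem_ps] at h3
    exact ⟨a, rfl, h3⟩

theorem RecF.comp {G : β → γ} (hG : RecF G) {F : α → β} (hF : RecF F) :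
    RecF fun a => G (F a) := by
  have h := delta_comp (M := M)
    (P := fun v => ∃ u, u < v 1 + 1 ∧ ∃ w, w < v 1 + 1 ∧
      (v 1 = pair u w ∧ pair u (v 0) ∈ gr F ∧ pair (v 0) w ∈ gr G))
    (Q := fun v => ∃ u, u < v 1 + 1 ∧ ∃ w, w < v 1 + 1 ∧
      (v 1 = pair u w ∧ u ∈ rg (M := M) α ∧ (pair u (v 0) ∈ gr F → pair (v 0) w ∈ gr G)))
    (D0.bex (P := fun v => ∃ w, w < v 2 + 1 ∧
      (v 2 = pair (v 0) w ∧ pair (v 0) (v 1) ∈ gr F ∧ pair (v 1) w ∈ gr G))
      ((IsT.var 1).add IsT.one)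
      (D0.bex (P := fun v => v 3 = pair (v 1) (v 0) ∧ pair (v 1) (v 2) ∈ gr F ∧
        pair (v 2) (v 0) ∈ gr G) ((IsT.var 2).add IsT.one)
        ((D0.eq (IsT.var 3) ((IsT.var 1).pair (IsT.var 0))).and
          ((D0.mem ((IsT.var 1).pair (IsT.var 2)) hF).and
            (D0.mem ((IsT.var 2).pair (IsT.var 0)) hG)))))
    (D0.bex (P := fun v => ∃ w, w < v 2 + 1 ∧
      (v 2 = pair (v 0) w ∧ v 0 ∈ rg (M := M) α ∧
        (pair (v 0) (v 1) ∈ gr F → pair (v 1) w ∈ gr G)))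
      ((IsT.var 1).add IsT.one)
      (D0.bex (P := fun v => v 3 = pair (v 1) (v 0) ∧ v 1 ∈ rg (M := M) α ∧
        (pair (v 1) (v 2) ∈ gr F → pair (v 2) (v 0) ∈ gr G)) ((IsT.var 2).add IsT.one)
        ((D0.eq (IsT.var 3) ((IsT.var 1).pair (IsT.var 0))).and
          ((D0.mem (IsT.var 1) rg_mem).and ((D0.mem ((IsT.var 1).pair (IsT.var 2)) hF).imp
            (D0.mem ((IsT.var 2).pair (IsT.var 0)) hG)))))) (fun _ => 0) (by
      intro x
      simp only [cons]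
      constructor
      · rintro ⟨y, u, hu, w, hw, rfl, h1, h2⟩ z
        obtain ⟨a, rfl, rfl⟩ := gr_dom h1
        refine ⟨_, hu, _, hw, rfl, ⟨a, rfl⟩, fun h3 => ?_⟩
        rw [mem_gr] at h3
        rw [h3]
        exact h2
      · intro h
        obtain ⟨u, hu, w, hw, rfl, ⟨a, rfl⟩, -⟩ := h 0
        obtain ⟨u', hu', w', hw', h3, ⟨a', rfl⟩, h4⟩ := h (Cod.enc (F a))
        obtain ⟨h5, rfl⟩ := pair_inj h3
        obtain rfl := Cod.inj h5
        exact ⟨Cod.enc (F a), _, hu, _, hw, rfl, mem_gr.mpr rfl, h4 (mem_gr.mpr rfl)⟩)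
  unfold RecF
  convert h using 1
  ext x
  simp only [cons, Set.mem_ofPred_eq]
  constructor
  · rintro ⟨a, rfl⟩
    exact ⟨Cod.enc (F a), _, (n_lt_add_one_iff _ _).mpr (le_pair_left _ _), _,
      (n_lt_add_one_iff _ _).mpr (le_pair_right _ _), rfl, mem_gr.mpr rfl, mem_gr.mpr rfl⟩
  · rintro ⟨y, u, -, w, -, rfl, h1, h2⟩
    obtain ⟨a, rfl, rfl⟩ := gr_dom h1
    rw [mem_gr] at h2
    exact ⟨a, by rw [h2]⟩

/-- sets of numbers in the model are recursive predicates -/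
theorem Rec.of_mem {A : Set M.N} (hA : A ∈ M.S) : Rec fun x : M.N => x ∈ A := by
  unfold Rec
  convert hA using 1
  ext x
  constructor
  · rintro ⟨a, rfl, h⟩; exact h
  · intro h; exact ⟨x, rfl, h⟩

theorem Rec.set {P : M.N → Prop} (hP : Rec P) : {x | P x} ∈ M.S := by
  unfold Rec at hP
  convert hP using 1
  ext x
  constructor
  · intro h; exact ⟨x, rfl, h⟩
  · rintro ⟨a, rfl, h⟩; exact h

theorem Rec.congr {P Q : α → Prop} (hP : Rec P) (h : ∀ a, Q a ↔ P a) : Rec Q := by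
  have : Q = P := by funext a; exact propext (h a)
  rwa [this]

theorem Rec.not {P : α → Prop} (hP : Rec P) : Rec fun a => ¬ P a := by
  have h := D0.set (M := M) (P := fun v => v 0 ∈ rg (M := M) α ∧ ¬ v 0 ∈ ps P)
    ((D0.mem (IsT.var 0) rg_mem).and (D0.mem (IsT.var 0) hP).not) (fun _ => 0)
  unfold Rec
  convert h using 1
  ext x
  simp only [cons, Set.mem_ofPred_eq]
  constructor
  · rintro ⟨a, rfl, h⟩
    exact ⟨⟨a, rfl⟩, fun h2 => h (mem_ps.mp h2)⟩
  · rintro ⟨⟨a, rfl⟩, h2⟩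
    exact ⟨a, rfl, fun h3 => h2 (mem_ps.mpr h3)⟩

theorem Rec.and {P Q : α → Prop} (hP : Rec P) (hQ : Rec Q) : Rec fun a => P a ∧ Q a := by
  have h := D0.set (M := M) (P := fun v => v 0 ∈ ps P ∧ v 0 ∈ ps Q)
    ((D0.mem (IsT.var 0) hP).and (D0.mem (IsT.var 0) hQ)) (fun _ => 0)
  unfold Rec
  convert h using 1
  ext x
  simp only [cons, Set.mem_ofPred_eq]
  constructor
  · rintro ⟨a, rfl, h⟩
    exact ⟨⟨a, rfl, h.1⟩, ⟨a, rfl, h.2⟩⟩
  · rintro ⟨⟨a, rfl, h1⟩, h2⟩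
    exact ⟨a, rfl, h1, mem_ps.mp h2⟩

theorem Rec.or {P Q : α → Prop} (hP : Rec P) (hQ : Rec Q) : Rec fun a => P a ∨ Q a :=
  ((hP.not).and hQ.not).not.congr fun a => by tauto

theorem Rec.imp {P Q : α → Prop} (hP : Rec P) (hQ : Rec Q) : Rec fun a => P a → Q a :=
  (hP.and hQ.not).not.congr fun a => by tauto

theorem Rec.iff {P Q : α → Prop} (hP : Rec P) (hQ : Rec Q) : Rec fun a => P a ↔ Q a :=
  ((hP.imp hQ).and (hQ.imp hP)).congr fun a => by tauto

theorem RecF.id' : RecF fun a : α => a := by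
  have h := D0.set (M := M) (P := fun v => ∃ u, u < v 0 + 1 ∧ (v 0 = pair u u ∧
      u ∈ rg (M := M) α))
    (D0.bex (P := fun v => v 1 = pair (v 0) (v 0) ∧ v 0 ∈ rg (M := M) α)
      ((IsT.var 0).add IsT.one) ((D0.eq (IsT.var 1) ((IsT.var 0).pair (IsT.var 0))).and
        (D0.mem (IsT.var 0) rg_mem))) (fun _ => 0)
  unfold RecF
  convert h using 1
  ext x
  simp only [cons, Set.mem_ofPred_eq]
  constructor
  · rintro ⟨a, rfl⟩
    exact ⟨_, (n_lt_add_one_iff _ _).mpr (le_pair_left _ _), rfl, ⟨a, rfl⟩⟩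
  · rintro ⟨u, -, rfl, ⟨a, rfl⟩⟩
    exact ⟨a, rfl⟩

theorem RecF.const (c : β) : RecF fun _ : α => c := by
  have h := D0.set (M := M) (P := fun v => ∃ u, u < v 0 + 1 ∧ (v 0 = pair u (v 1) ∧
      u ∈ rg (M := M) α))
    (D0.bex (P := fun v => v 1 = pair (v 0) (v 2) ∧ v 0 ∈ rg (M := M) α)
      ((IsT.var 0).add IsT.one) ((D0.eq (IsT.var 1) ((IsT.var 0).pair (IsT.var 2))).and
        (D0.mem (IsT.var 0) rg_mem))) (fun _ => Cod.enc c)
  unfold RecF
  convert h using 1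
  ext x
  simp only [cons, Set.mem_ofPred_eq]
  constructor
  · rintro ⟨a, rfl⟩
    exact ⟨_, (n_lt_add_one_iff _ _).mpr (le_pair_left _ _), rfl, ⟨a, rfl⟩⟩
  · rintro ⟨u, -, rfl, ⟨a, rfl⟩⟩
    exact ⟨a, rfl⟩

theorem RecF.prod {F : α → β} {G : α → γ} (hF : RecF F) (hG : RecF G) :
    RecF fun a => (F a, G a) := by
  have h := D0.set (M := M) (P := fun v => ∃ u, u < v 0 + 1 ∧ ∃ p, p < v 0 + 1 ∧ ∃ q, q < v 0 + 1 ∧
      (v 0 = pair u (pair p q) ∧ pair u p ∈ gr F ∧ pair u q ∈ gr G))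
    (D0.bex (P := fun v => ∃ p, p < v 1 + 1 ∧ ∃ q, q < v 1 + 1 ∧
      (v 1 = pair (v 0) (pair p q) ∧ pair (v 0) p ∈ gr F ∧ pair (v 0) q ∈ gr G))
      ((IsT.var 0).add IsT.one)
      (D0.bex (P := fun v => ∃ q, q < v 2 + 1 ∧
        (v 2 = pair (v 1) (pair (v 0) q) ∧ pair (v 1) (v 0) ∈ gr F ∧ pair (v 1) q ∈ gr G))
        ((IsT.var 1).add IsT.one)
        (D0.bex (P := fun v => v 3 = pair (v 2) (pair (v 1) (v 0)) ∧ pair (v 2) (v 1) ∈ gr F ∧
          pair (v 2) (v 0) ∈ gr G) ((IsT.var 2).add IsT.one)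
          ((D0.eq (IsT.var 3) ((IsT.var 2).pair ((IsT.var 1).pair (IsT.var 0)))).and
            ((D0.mem ((IsT.var 2).pair (IsT.var 1)) hF).and
              (D0.mem ((IsT.var 2).pair (IsT.var 0)) hG)))))) (fun _ => 0)
  unfold RecF
  convert h using 1
  ext x
  simp only [cons, Set.mem_ofPred_eq]
  constructor
  · rintro ⟨a, rfl⟩
    exact ⟨_, (n_lt_add_one_iff _ _).mpr (le_pair_left _ _), _,
      (n_lt_add_one_iff _ _).mpr ((le_pair_left _ _).trans (le_pair_right _ _)), _,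
      (n_lt_add_one_iff _ _).mpr ((le_pair_right _ _).trans (le_pair_right _ _)), rfl,
      mem_gr.mpr rfl, mem_gr.mpr rfl⟩
  · rintro ⟨u, -, p, -, q, -, rfl, h1, h2⟩
    obtain ⟨a, rfl, rfl⟩ := gr_dom h1
    rw [mem_gr] at h2
    exact ⟨a, by rw [h2]; rfl⟩

theorem RecF.fst0 : RecF fun p : α × β => p.1 := by
  have h := D0.set (M := M) (P := fun v => ∃ a, a < v 0 + 1 ∧ ∃ b, b < v 0 + 1 ∧
      (v 0 = pair (pair a b) a ∧ a ∈ rg (M := M) α ∧ b ∈ rg (M := M) β))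
    (D0.bex (P := fun v => ∃ b, b < v 1 + 1 ∧
      (v 1 = pair (pair (v 0) b) (v 0) ∧ v 0 ∈ rg (M := M) α ∧ b ∈ rg (M := M) β))
      ((IsT.var 0).add IsT.one)
      (D0.bex (P := fun v => v 2 = pair (pair (v 1) (v 0)) (v 1) ∧ v 1 ∈ rg (M := M) α ∧
        v 0 ∈ rg (M := M) β) ((IsT.var 1).add IsT.one)
        ((D0.eq (IsT.var 2) (((IsT.var 1).pair (IsT.var 0)).pair (IsT.var 1))).and
          ((D0.mem (IsT.var 1) rg_mem).and (D0.mem (IsT.var 0) rg_mem))))) (fun _ => 0)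
  unfold RecF
  convert h using 1
  ext x
  simp only [cons, Set.mem_ofPred_eq]
  constructor
  · rintro ⟨⟨a, b⟩, rfl⟩
    exact ⟨Cod.enc a, (n_lt_add_one_iff _ _).mpr (le_pair_right _ _), Cod.enc b,
      (n_lt_add_one_iff _ _).mpr ((le_pair_right _ _).trans (le_pair_left _ _)), rfl,
      ⟨a, rfl⟩, ⟨b, rfl⟩⟩
  · rintro ⟨_, -, _, -, rfl, ⟨a, rfl⟩, ⟨b, rfl⟩⟩
    exact ⟨(a, b), rfl⟩

theorem RecF.snd0 : RecF fun p : α × β => p.2 := by
  have h := D0.set (M := M) (P := fun v => ∃ a, a < v 0 + 1 ∧ ∃ b, b < v 0 + 1 ∧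
      (v 0 = pair (pair a b) b ∧ a ∈ rg (M := M) α ∧ b ∈ rg (M := M) β))
    (D0.bex (P := fun v => ∃ b, b < v 1 + 1 ∧
      (v 1 = pair (pair (v 0) b) b ∧ v 0 ∈ rg (M := M) α ∧ b ∈ rg (M := M) β))
      ((IsT.var 0).add IsT.one)
      (D0.bex (P := fun v => v 2 = pair (pair (v 1) (v 0)) (v 0) ∧ v 1 ∈ rg (M := M) α ∧
        v 0 ∈ rg (M := M) β) ((IsT.var 1).add IsT.one)
        ((D0.eq (IsT.var 2) (((IsT.var 1).pair (IsT.var 0)).pair (IsT.var 0))).and
          ((D0.mem (IsT.var 1) rg_mem).and (D0.mem (IsT.var 0) rg_mem))))) (fun _ => 0)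
  unfold RecF
  convert h using 1
  ext x
  simp only [cons, Set.mem_ofPred_eq]
  constructor
  · rintro ⟨⟨a, b⟩, rfl⟩
    exact ⟨Cod.enc a, (n_lt_add_one_iff _ _).mpr ((le_pair_left _ _).trans (le_pair_left _ _)),
      Cod.enc b, (n_lt_add_one_iff _ _).mpr (le_pair_right _ _), rfl, ⟨a, rfl⟩, ⟨b, rfl⟩⟩
  · rintro ⟨_, -, _, -, rfl, ⟨a, rfl⟩, ⟨b, rfl⟩⟩
    exact ⟨(a, b), rfl⟩

theorem RecF.fst {F : α → β × γ} (h : RecF F) : RecF fun a => (F a).1 := RecF.fst0.comp h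
theorem RecF.snd {F : α → β × γ} (h : RecF F) : RecF fun a => (F a).2 := RecF.snd0.comp h

theorem RecF.of_term {f : (ℕ → M.N) → M.N} (hf : IsT f)
    (hf2 : ∀ v w : ℕ → M.N, v 0 = w 0 → v 1 = w 1 → f v = f w) :
    RecF fun p : M.N × M.N => f (cons p.1 (cons p.2 fun _ => 0)) := by
  have hf4 : IsT fun v : ℕ → M.N => f fun i => v (if i = 0 then 1 else 0) := by
    obtain ⟨t, ht⟩ := hf
    exact ⟨t.ren fun i => if i = 0 then 1 else 0, fun v => by rw [Term.eval_ren]; exact ht _⟩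
  have h := D0.set (M := M) (P := fun v => ∃ a, a < v 0 + 1 ∧ ∃ b, b < v 0 + 1 ∧
      (v 0 = pair (pair a b) (f (cons a (cons b fun _ => 0)))))
    (D0.bex (P := fun v => ∃ b, b < v 1 + 1 ∧
      (v 1 = pair (pair (v 0) b) (f (cons (v 0) (cons b fun _ => 0)))))
      ((IsT.var 0).add IsT.one)
      (D0.bex (P := fun v => v 2 = pair (pair (v 1) (v 0)) (f (cons (v 1) (cons (v 0) fun _ => 0))))
        ((IsT.var 1).add IsT.one)
        ((D0.eq (IsT.var 2) (((IsT.var 1).pair (IsT.var 0)).pair hf4)).congr fun v => by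
          rw [hf2 (cons (v 1) (cons (v 0) fun _ => 0)) (fun i => v (if i = 0 then 1 else 0)) rfl
            rfl]))) (fun _ => 0)
  unfold RecF
  convert h using 1
  ext x
  simp only [cons, Set.mem_ofPred_eq]
  constructor
  · rintro ⟨⟨a, b⟩, rfl⟩
    exact ⟨a, (n_lt_add_one_iff _ _).mpr ((le_pair_left _ _).trans (le_pair_left _ _)),
      b, (n_lt_add_one_iff _ _).mpr ((le_pair_right _ _).trans (le_pair_left _ _)), rfl⟩
  · rintro ⟨a, -, b, -, rfl⟩
    exact ⟨(a, b), rfl⟩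

theorem RecF.add {F G : α → M.N} (hF : RecF F) (hG : RecF G) : RecF fun a => F a + G a := by
  have h := RecF.of_term (M := M) (f := fun v => v 0 + v 1) ((IsT.var 0).add (IsT.var 1))
    (fun v w h1 h2 => by simp only [h1, h2])
  exact h.comp (hF.prod hG)

theorem RecF.mul {F G : α → M.N} (hF : RecF F) (hG : RecF G) : RecF fun a => F a * G a := by
  have h := RecF.of_term (M := M) (f := fun v => v 0 * v 1) ((IsT.var 0).mul (IsT.var 1))
    (fun v w h1 h2 => by simp only [h1, h2])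
  exact h.comp (hF.prod hG)

theorem RecF.pair {F G : α → M.N} (hF : RecF F) (hG : RecF G) :
    RecF fun a => pair (F a) (G a) :=
  ((hF.add hG).mul (hF.add hG)).add hF

theorem Rec.of_D0 {P : (ℕ → M.N) → Prop} (hP : D0 P)
    (hP2 : ∀ v w : ℕ → M.N, v 0 = w 0 → v 1 = w 1 → (P v ↔ P w)) :
    Rec fun p : M.N × M.N => P (cons p.1 (cons p.2 fun _ => 0)) := by
  have hf4 := hP.ren (fun i => if i = 0 then 1 else 0)
  have h := D0.set (M := M) (P := fun v => ∃ a, a < v 0 + 1 ∧ ∃ b, b < v 0 + 1 ∧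
      (v 0 = RCA.pair a b ∧ P (cons a (cons b fun _ => 0))))
    (D0.bex (P := fun v => ∃ b, b < v 1 + 1 ∧
      (v 1 = RCA.pair (v 0) b ∧ P (cons (v 0) (cons b fun _ => 0))))
      ((IsT.var 0).add IsT.one)
      (D0.bex (P := fun v => v 2 = RCA.pair (v 1) (v 0) ∧ P (cons (v 1) (cons (v 0) fun _ => 0)))
        ((IsT.var 1).add IsT.one)
        (((D0.eq (IsT.var 2) ((IsT.var 1).pair (IsT.var 0))).and hf4).congr fun v => by
          rw [hP2 (cons (v 1) (cons (v 0) fun _ => 0)) (fun i => v (if i = 0 then 1 else 0)) rfl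
            rfl]))) (fun _ => 0)
  unfold Rec
  convert h using 1
  ext x
  simp only [cons, Set.mem_ofPred_eq]
  constructor
  · rintro ⟨⟨a, b⟩, rfl, h⟩
    exact ⟨a, (n_lt_add_one_iff _ _).mpr (le_pair_left _ _),
      b, (n_lt_add_one_iff _ _).mpr (le_pair_right _ _), rfl, h⟩
  · rintro ⟨a, -, b, -, rfl, h⟩
    exact ⟨(a, b), rfl, h⟩

theorem Rec.eq {F G : α → M.N} (hF : RecF F) (hG : RecF G) : Rec fun a => F a = G a := by
  have h := Rec.of_D0 (M := M) (P := fun v => v 0 = v 1) (D0.eq (IsT.var 0) (IsT.var 1))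
    (fun v w h1 h2 => by simp only [h1, h2])
  exact h.comp (hF.prod hG)

theorem Rec.lt {F G : α → M.N} (hF : RecF F) (hG : RecF G) : Rec fun a => F a < G a := by
  have h := Rec.of_D0 (M := M) (P := fun v => v 0 < v 1) (D0.lt (IsT.var 0) (IsT.var 1))
    (fun v w h1 h2 => by simp only [h1, h2])
  exact h.comp (hF.prod hG)

theorem Rec.le {F G : α → M.N} (hF : RecF F) (hG : RecF G) : Rec fun a => F a ≤ G a :=
  ((Rec.lt hF hG).or (Rec.eq hF hG)).congr fun a => le_iff_lt_or_eq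

theorem Rec.mem {A : Set M.N} (hA : A ∈ M.S) {F : α → M.N} (hF : RecF F) :
    Rec fun a => F a ∈ A := (Rec.of_mem hA).comp hF

theorem Rec.ball0 {P : α × M.N → Prop} (hP : Rec P) :
    Rec fun p : α × M.N => ∀ x, x < p.2 → P (p.1, x) := by
  have h := D0.set (M := M) (P := fun v => ∃ u, u < v 0 + 1 ∧ ∃ b, b < v 0 + 1 ∧
      (v 0 = RCA.pair u b ∧ u ∈ rg (M := M) α ∧ ∀ x, x < b → RCA.pair u x ∈ ps P))
    (D0.bex (P := fun v => ∃ b, b < v 1 + 1 ∧
      (v 1 = RCA.pair (v 0) b ∧ v 0 ∈ rg (M := M) α ∧ ∀ x, x < b → RCA.pair (v 0) x ∈ ps P))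
      ((IsT.var 0).add IsT.one)
      (D0.bex (P := fun v => v 2 = RCA.pair (v 1) (v 0) ∧ v 1 ∈ rg (M := M) α ∧
          ∀ x, x < v 0 → RCA.pair (v 1) x ∈ ps P)
        ((IsT.var 1).add IsT.one)
        ((D0.eq (IsT.var 2) ((IsT.var 1).pair (IsT.var 0))).and
          ((D0.mem (IsT.var 1) rg_mem).and
            (D0.ball (P := fun v => RCA.pair (v 2) (v 0) ∈ ps P) (IsT.var 0)
              (D0.mem ((IsT.var 2).pair (IsT.var 0)) hP)))))) (fun _ => 0)
  unfold Rec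
  convert h using 1
  ext x
  simp only [cons, Set.mem_ofPred_eq]
  constructor
  · rintro ⟨⟨a, b⟩, rfl, h⟩
    exact ⟨_, (n_lt_add_one_iff _ _).mpr (le_pair_left _ _), _,
      (n_lt_add_one_iff _ _).mpr (le_pair_right _ _), rfl, ⟨a, rfl⟩,
      fun x hx => ⟨(a, x), rfl, h x hx⟩⟩
  · rintro ⟨_, -, b, -, rfl, ⟨a, rfl⟩, h⟩
    exact ⟨(a, b), rfl, fun x hx => mem_ps.mp (h x hx)⟩

theorem Rec.ball {F : α → M.N} (hF : RecF F) {P : α → M.N → Prop}
    (hP : Rec fun p : α × M.N => P p.1 p.2) : Rec fun a => ∀ x, x < F a → P a x :=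
  (Rec.ball0 hP).comp (RecF.id'.prod hF)

theorem Rec.bex {F : α → M.N} (hF : RecF F) {P : α → M.N → Prop}
    (hP : Rec fun p : α × M.N => P p.1 p.2) : Rec fun a => ∃ x, x < F a ∧ P a x :=
  (Rec.ball (P := fun a x => ¬ P a x) hF hP.not).not.congr fun a => by push Not; rfl

theorem Rec.const (p : Prop) : Rec fun _ : α => p := by
  by_cases hp : p
  · exact (Rec.eq (RecF.const (0 : M.N)) (RecF.const (0 : M.N))).congr fun a => by simp [hp]
  · exact (Rec.eq (RecF.const (0 : M.N)) (RecF.const (0 : M.N))).not.congr fun a => by simp [hp]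

/-- induction for recursive predicates -/
theorem Rec.ind {P : M.N → Prop} (hP : Rec P) (h0 : P 0) (hs : ∀ n, P n → P (n + 1)) :
    ∀ n, P n := by
  have h := d0_ind (M := M) (P := fun v => v 0 ∈ {x | P x}) (D0.mem (IsT.var 0) hP.set)
    (fun _ => 0) h0 hs
  exact h

/-- `Σ₁` induction -/
theorem Rec.sig_ind {P : M.N → M.N → Prop} (hP : Rec fun p : M.N × M.N => P p.1 p.2)
    (h0 : ∃ y, P 0 y) (hs : ∀ n, (∃ y, P n y) → ∃ y, P (n + 1) y) : ∀ n, ∃ y, P n y := by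
  have key : ∀ n y, RCA.pair n y ∈ ps (fun p : M.N × M.N => P p.1 p.2) ↔ P n y := fun n y =>
    mem_ps (P := fun p : M.N × M.N => P p.1 p.2) (a := (n, y))
  have h := sigma_ind (M := M) (P := fun v => RCA.pair (v 1) (v 0) ∈
      ps (fun p : M.N × M.N => P p.1 p.2)) (D0.mem ((IsT.var 1).pair (IsT.var 0)) hP)
    (fun _ => 0)
  simp only [cons, key] at h
  exact h h0 hs

/-- every non-empty set of the model has a least element -/
theorem exists_least {B : Set M.N} (hB : B ∈ M.S) {x : M.N} (hx : x ∈ B) :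
    ∃ y ∈ B, ∀ z, z < y → z ∉ B := by
  by_contra hcon
  push Not at hcon
  have h : ∀ a : M.N, ∀ z, z < a → z ∉ B := by
    apply Rec.ind
    · exact Rec.ball RecF.id' (Rec.mem hB RecF.id'.snd).not
    · intro z hz
      exact absurd hz (hM.out.not_lt_zero z)
    · intro a ih z hz hzB
      obtain ⟨y, hy1, hy2⟩ := hcon z hzB
      rcases (n_lt_succ z a).mp hz with h | h
      · exact ih z h hzB
      · subst h
        exact ih y hy1 hy2
  exact h (x + 1) x ((n_lt_add_one_iff _ _).mpr le_rfl) hx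

theorem Rec.least {P : M.N → Prop} (hP : Rec P) (h : ∃ x, P x) :
    ∃ y, P y ∧ ∀ z, z < y → ¬ P z := by
  obtain ⟨x, hx⟩ := h
  obtain ⟨y, h1, h2⟩ := exists_least hP.set (x := x) hx
  exact ⟨y, h1, fun z hz => h2 z hz⟩

/-- strong induction -/
theorem Rec.strong_ind {P : M.N → Prop} (hP : Rec P) (hs : ∀ n, (∀ m, m < n → P m) → P n) :
    ∀ n, P n := by
  intro n
  by_contra hn
  obtain ⟨y, h1, h2⟩ := Rec.least hP.not ⟨n, hn⟩
  exact h1 (hs y fun m hm => not_not.mp (h2 m hm))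

/-- minimisation -/
theorem Rec.mu {P : α → M.N → Prop} (hP : Rec fun p : α × M.N => P p.1 p.2)
    (h : ∀ a, ∃ x, P a x) : ∃ F : α → M.N, RecF F ∧ ∀ a, P a (F a) ∧ ∀ x, x < F a → ¬ P a x := by
  have hsec : ∀ a, Rec fun x => P a x := fun a =>
    hP.comp (F := fun x : M.N => (a, x)) ((RecF.const a).prod RecF.id')
  choose F hF1 hF2 using fun a => (hsec a).least (h a)
  refine ⟨F, ?_, fun a => ⟨hF1 a, hF2 a⟩⟩
  have hQ : Rec fun p : α × M.N => P p.1 p.2 ∧ ∀ x, x < p.2 → ¬ P p.1 x :=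
    hP.and (Rec.ball RecF.id'.snd (P := fun p x => ¬ P p.1 x)
      (hP.comp (F := fun q : (α × M.N) × M.N => (q.1.1, q.2))
        (RecF.id'.fst.fst.prod RecF.id'.snd)).not)
  unfold RecF
  unfold Rec at hQ
  convert hQ using 1
  ext z
  constructor
  · rintro ⟨a, rfl⟩
    exact ⟨(a, F a), rfl, hF1 a, hF2 a⟩
  · rintro ⟨⟨a, x⟩, rfl, h1, h2⟩
    refine ⟨a, ?_⟩
    rcases lt_trichotomy x (F a) with h3 | h3 | h3
    · exact absurd h1 (hF2 a x h3)
    · rw [h3]; rfl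
    · exact absurd (hF1 a) (h2 _ h3)

end Defs

end Pool.Agent.Helper63.RCA
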