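import Mathlib
import Pool.Agent.Helper63.RCA.Rec

/-!
# Coding of finite sets and primitive recursion inside a model of `RCA₀`
-/

set_option autoImplicit false
set_option linter.unreachableTactic false
set_option linter.unusedTactic false

namespace Pool.Agent.Helper63.RCA

variable {M : L2Structure} [hM : RCA0 M] {α β γ : Type} [Cod M α] [Cod M β] [Cod M γ]

theorem n_pos_iff (a : M.N) : 0 < a ↔ a ≠ 0 := pos_iff_ne_zero

theorem n_one_le {a : M.N} (h : a ≠ 0) : 1 ≤ a := by
  obtain ⟨b, rfl | rfl⟩ := n_eq_zero_or_succ a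
  · exact absurd rfl h
  · exact le_add_self

theorem dvd_iff_bdd (d n : M.N) : d ∣ n ↔ ∃ q, q < n + 1 ∧ n = q * d := by
  constructor
  · rintro ⟨q, rfl⟩
    by_cases hd : d = 0
    · subst hd
      exact ⟨0, by simp, by simp⟩
    · refine ⟨q, (n_lt_add_one_iff _ _).mpr ?_, mul_comm _ _⟩
      calc q = 1 * q := (one_mul q).symm
        _ ≤ d * q := by
          obtain ⟨e, rfl | rfl⟩ := n_eq_zero_or_succ d
          · exact absurd rfl hd
          · rw [n_le_iff]; exact ⟨e * q, by ring⟩
  · rintro ⟨q, -, h⟩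
    exact ⟨q, by rw [h, mul_comm]⟩

theorem Rec.dvd {F G : α → M.N} (hF : RecF F) (hG : RecF G) : Rec fun a => F a ∣ G a := by
  have h : Rec fun a : α => ∃ q, q < G a + 1 ∧ G a = q * F a := by
    apply Rec.bex (hG.add (RecF.const 1))
    exact Rec.eq (hG.comp RecF.id'.fst) (RecF.id'.snd.mul (hF.comp RecF.id'.fst))
  exact h.congr fun a => dvd_iff_bdd _ _

theorem inCode_iff (i k m n : M.N) :
    InCode i (pair (pair k m) n) ↔ i < k ∧ (m * (i + 1) + 1) ∣ n := by
  constructor
  · rintro ⟨k', m', n', h, h1, q, hq⟩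
    obtain ⟨h2, rfl⟩ := pair_inj h
    obtain ⟨rfl, rfl⟩ := pair_inj h2
    exact ⟨h1, q, by rw [hq, mul_comm]⟩
  · rintro ⟨h1, q, hq⟩
    exact ⟨k, m, n, rfl, h1, q, by rw [hq, mul_comm]⟩

theorem InCode.lt {i w : M.N} (h : InCode i w) : i < w := by
  obtain ⟨k, m, n, rfl, h1, -⟩ := h
  exact h1.trans_le ((le_pair_left _ _).trans (le_pair_left _ _))

theorem inCode_iff_bdd (i w : M.N) : InCode i w ↔ ∃ k, k < w + 1 ∧ ∃ m, m < w + 1 ∧ ∃ n, n < w + 1 ∧
    (w = pair (pair k m) n ∧ i < k ∧ (m * (i + 1) + 1) ∣ n) := by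
  constructor
  · rintro ⟨k, m, n, rfl, h1, q, hq⟩
    refine ⟨k, (n_lt_add_one_iff _ _).mpr ((le_pair_left _ _).trans (le_pair_left _ _)),
      m, (n_lt_add_one_iff _ _).mpr ((le_pair_right _ _).trans (le_pair_left _ _)),
      n, (n_lt_add_one_iff _ _).mpr (le_pair_right _ _), rfl, h1, q, by rw [hq, mul_comm]⟩
  · rintro ⟨k, -, m, -, n, -, rfl, h1, h2⟩
    exact (inCode_iff _ _ _ _).mpr ⟨h1, h2⟩

theorem Rec.inCode {F G : α → M.N} (hF : RecF F) (hG : RecF G) :
    Rec fun a => InCode (F a) (G a) := by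
  have h : Rec fun p : M.N × M.N => ∃ k, k < p.2 + 1 ∧ ∃ m, m < p.2 + 1 ∧ ∃ n, n < p.2 + 1 ∧
      (p.2 = RCA.pair (RCA.pair k m) n ∧ p.1 < k ∧ (m * (p.1 + 1) + 1) ∣ n) := by
    repeat' with_reducible first
      | exact RecF.id' | exact RecF.const _ | assumption | apply RecF.fst | apply RecF.snd
      | apply RecF.add | apply RecF.mul | apply RecF.pair | apply Rec.bex | apply Rec.ball
      | apply Rec.and | apply Rec.or | apply Rec.not | apply Rec.iff | apply Rec.imp
      | apply Rec.eq | apply Rec.lt | apply Rec.le | apply Rec.dvd | apply RecF.prod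
  exact (h.congr fun p => inCode_iff_bdd _ _).comp (hF.prod hG)

theorem isTriple_iff_bdd (w : M.N) : IsTriple w ↔ ∃ k, k < w + 1 ∧ ∃ m, m < w + 1 ∧
    ∃ n, n < w + 1 ∧ w = pair (pair k m) n := by
  constructor
  · rintro ⟨k, m, n, rfl⟩
    exact ⟨k, (n_lt_add_one_iff _ _).mpr ((le_pair_left _ _).trans (le_pair_left _ _)),
      m, (n_lt_add_one_iff _ _).mpr ((le_pair_right _ _).trans (le_pair_left _ _)),
      n, (n_lt_add_one_iff _ _).mpr (le_pair_right _ _), rfl⟩
  · rintro ⟨k, -, m, -, n, -, rfl⟩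
    exact ⟨k, m, n, rfl⟩

theorem Rec.isTriple {F : α → M.N} (hF : RecF F) : Rec fun a => IsTriple (F a) := by
  have h : Rec fun w : M.N => ∃ k, k < w + 1 ∧ ∃ m, m < w + 1 ∧
      ∃ n, n < w + 1 ∧ w = RCA.pair (RCA.pair k m) n := by
    repeat' with_reducible first
      | exact RecF.id' | exact RecF.const _ | assumption | apply RecF.fst | apply RecF.snd
      | apply RecF.add | apply RecF.mul | apply RecF.pair | apply Rec.bex | apply Rec.ball
      | apply Rec.and | apply Rec.or | apply Rec.not | apply Rec.iff | apply Rec.imp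
      | apply Rec.eq | apply Rec.lt | apply Rec.le | apply Rec.dvd | apply RecF.prod
  exact (h.congr fun p => isTriple_iff_bdd _).comp hF

theorem isCode_iff_bdd (w : M.N) : IsCode w ↔ (IsTriple w ∧ ∀ w', w' < w → (IsTriple w' →
    ¬ ∀ i, i < w → (InCode i w' ↔ InCode i w))) := by
  unfold IsCode
  refine and_congr_right fun _ => forall_congr' fun w' => imp_congr_right fun h => imp_congr_right
    fun _ => not_congr ?_
  constructor
  · intro h i _
    exact h i
  · intro h2 i
    constructor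
    · intro h3
      exact (h2 i (h3.lt.trans h)).mp h3
    · intro h3
      exact (h2 i h3.lt).mpr h3

theorem Rec.isCode {F : α → M.N} (hF : RecF F) : Rec fun a => IsCode (F a) := by
  have h : Rec fun w : M.N => (IsTriple w ∧ ∀ w', w' < w → (IsTriple w' →
    ¬ ∀ i, i < w → (InCode i w' ↔ InCode i w))) := by
    repeat' with_reducible first
      | apply Rec.isTriple | apply Rec.inCode | exact RecF.id' | exact RecF.const _ | assumption
      | apply RecF.fst | apply RecF.snd | apply RecF.add | apply RecF.mul | apply RecF.pair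
      | apply Rec.bex | apply Rec.ball | apply Rec.and | apply Rec.or | apply Rec.not
      | apply Rec.iff | apply Rec.imp | apply Rec.eq | apply Rec.lt | apply Rec.le
      | apply Rec.dvd | apply RecF.prod
  exact (h.congr fun p => isCode_iff_bdd _).comp hF

theorem IsCode.ext {w w' : M.N} (h : IsCode w) (h' : IsCode w')
    (hww : ∀ i, InCode i w ↔ InCode i w') : w = w' := by
  rcases lt_trichotomy w w' with h1 | h1 | h1
  · exact absurd hww (h'.2 w h1 h.1)
  · exact h1
  · exact absurd (fun i => (hww i).symm) (h.2 w' h1 h'.1)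

/-! ### existence of codes -/

theorem dvd_sub_aux {a x y : M.N} (ha : a ≠ 0) (h1 : a ∣ x) (h2 : a ∣ x + y) : a ∣ y := by
  obtain ⟨p, rfl⟩ := h1
  obtain ⟨q, hq⟩ := h2
  rcases lt_or_ge q p with h | h
  · have h3 : a * q < a * p := n_mul_lt_mul h (pos_iff_ne_zero.mpr ha)
    rw [← hq] at h3
    exact absurd h3 (not_lt.mpr le_self_add)
  · obtain ⟨t, rfl⟩ := (n_le_iff _ _).mp h
    refine ⟨t, ?_⟩
    rw [mul_add] at hq
    exact add_left_cancel hq

theorem coprime_aux {m b i j n : M.N} (hm : ∀ d, 0 < d → d ≤ b → d ∣ m) (hi : i < b) (hj : j < b)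
    (hij : i ≠ j) (h : (m * (i + 1) + 1) ∣ n * (m * (j + 1) + 1)) : (m * (i + 1) + 1) ∣ n := by
  have ha : m * (i + 1) + 1 ≠ 0 := n_succ_ne _
  -- it suffices to show that it divides `n * d` for some `d ∣ m`
  have key : ∀ d, d ∣ m → (m * (i + 1) + 1) ∣ n * d → (m * (i + 1) + 1) ∣ n := by
    rintro d ⟨m', rfl⟩ hd
    have h1 : (d * m' * (i + 1) + 1) ∣ n * d * (m' * (i + 1)) := Dvd.dvd.mul_right hd _
    have h2 : (d * m' * (i + 1) + 1) ∣ n * d * (m' * (i + 1)) + n := ⟨n, by ring⟩
    exact dvd_sub_aux ha h1 h2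
  rcases lt_or_gt_of_ne hij with hlt | hlt
  · obtain ⟨d, hd⟩ := (n_lt_iff _ _).mp hlt
    refine key (d + 1) (hm _ (by rw [pos_iff_ne_zero]; exact n_succ_ne d) ?_) ?_
    · calc d + 1 ≤ i + (d + 1) := le_add_self
        _ = j := hd
        _ ≤ b := hj.le
    · have h1 : (m * (i + 1) + 1) ∣ n * (m * (j + 1) + 1) * (i + 1) := Dvd.dvd.mul_right h _
      have h2 : (m * (i + 1) + 1) ∣ n * (m * (j + 1) + 1) * (i + 1) + n * (d + 1) :=
        ⟨n * (j + 1), by rw [← hd]; ring⟩
      exact dvd_sub_aux ha h1 h2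
  · obtain ⟨d, hd⟩ := (n_lt_iff _ _).mp hlt
    refine key (d + 1) (hm _ (by rw [pos_iff_ne_zero]; exact n_succ_ne d) ?_) ?_
    · calc d + 1 ≤ j + (d + 1) := le_add_self
        _ = i := hd
        _ ≤ b := hi.le
    · have h1 : (m * (i + 1) + 1) ∣ n * (j + 1) * (m * (i + 1) + 1) := Dvd.intro_left _ rfl
      have h2 : (m * (i + 1) + 1) ∣ n * (j + 1) * (m * (i + 1) + 1) + n * (d + 1) := by
        have : n * (j + 1) * (m * (i + 1) + 1) + n * (d + 1) = n * (m * (j + 1) + 1) * (i + 1) := by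
          rw [← hd]; ring
        rw [this]
        exact Dvd.dvd.mul_right h _
      exact dvd_sub_aux ha h1 h2

theorem exists_mult (b : M.N) : ∃ m : M.N, m ≠ 0 ∧ ∀ d, 0 < d → d ≤ b → d ∣ m := by
  have h : ∀ b : M.N, ∃ m : M.N, m ≠ 0 ∧ ∀ i, i < b → (i + 1) ∣ m := by
    apply Rec.sig_ind (P := fun b m : M.N => m ≠ 0 ∧ ∀ i, i < b → (i + 1) ∣ m)
    · repeat' with_reducible first
        | exact RecF.id' | exact RecF.const _ | assumption | apply RecF.fst | apply RecF.snd
        | apply RecF.add | apply RecF.mul | apply RecF.pair | apply Rec.bex | apply Rec.ball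
        | apply Rec.and | apply Rec.or | apply Rec.not | apply Rec.iff | apply Rec.imp
        | apply Rec.eq | apply Rec.lt | apply Rec.le | apply Rec.dvd | apply RecF.prod
    · exact ⟨1, one_ne_zero, fun i hi => absurd hi (hM.out.not_lt_zero i)⟩
    · rintro b ⟨m, hm, h⟩
      refine ⟨m * (b + 1), ?_, ?_⟩
      · intro h0
        have h1 : 0 < m := pos_iff_ne_zero.mpr hm
        have h2 : 0 < b + 1 := pos_iff_ne_zero.mpr (n_succ_ne b)
        have h3 := n_mul_lt_mul h2 h1
        rw [h0, mul_zero] at h3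
        exact lt_irrefl _ h3
      · intro i hi
        rcases (n_lt_succ i b).mp hi with h1 | h1
        · exact Dvd.dvd.mul_right (h i h1) _
        · rw [h1]; exact Dvd.intro_left _ rfl
  obtain ⟨m, hm, h2⟩ := h b
  refine ⟨m, hm, fun d hd hdb => ?_⟩
  obtain ⟨e, rfl | rfl⟩ := n_eq_zero_or_succ d
  · exact absurd hd (lt_irrefl _)
  · exact h2 e ((n_add_one_le_iff _ _).mp hdb)

/-- Every bounded part of a set of the model is coded; the code can be taken at least `b`. -/
theorem exists_triple (A : Set M.N) (hA : A ∈ M.S) (b : M.N) :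
    ∃ w, IsTriple w ∧ b ≤ w ∧ ∀ i, InCode i w ↔ (i ∈ A ∧ i < b) := by
  obtain ⟨m, hm0, hm⟩ := exists_mult b
  have h : ∀ j : M.N, ∃ n : M.N, n ≠ 0 ∧ ∀ i, i < b →
      ((m * (i + 1) + 1) ∣ n ↔ (i < j ∧ i ∈ A)) := by
    apply Rec.sig_ind (P := fun j n : M.N => n ≠ 0 ∧ ∀ i, i < b →
      ((m * (i + 1) + 1) ∣ n ↔ (i < j ∧ i ∈ A)))
    · repeat' with_reducible first
        | apply Rec.mem hA | exact RecF.id' | exact RecF.const _ | assumption | apply RecF.fst
        | apply RecF.snd | apply RecF.add | apply RecF.mul | apply RecF.pair | apply Rec.bex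
        | apply Rec.ball | apply Rec.and | apply Rec.or | apply Rec.not | apply Rec.iff
        | apply Rec.imp | apply Rec.eq | apply Rec.lt | apply Rec.le | apply Rec.dvd
        | apply RecF.prod
    · refine ⟨1, one_ne_zero, fun i hi => ⟨fun h => ?_, fun h => absurd h.1 (hM.out.not_lt_zero i)⟩⟩
      obtain ⟨q, hq⟩ := h
      have hq0 : q ≠ 0 := by
        rintro rfl
        rw [mul_zero] at hq
        exact one_ne_zero hq
      have h1 : (m * (i + 1) + 1) ≤ (m * (i + 1) + 1) * q := by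
        obtain ⟨e, rfl | rfl⟩ := n_eq_zero_or_succ q
        · exact absurd rfl hq0
        · rw [n_le_iff]; exact ⟨(m * (i + 1) + 1) * e, by ring⟩
      rw [← hq] at h1
      have h2 : m * (i + 1) ≤ 0 := by
        have : m * (i + 1) + 1 ≤ 0 + 1 := by rwa [zero_add]
        exact (add_le_add_iff_right 1).mp this
      have h3 : 0 < m * (i + 1) := by
        have := n_mul_lt_mul (pos_iff_ne_zero.mpr (n_succ_ne i)) (pos_iff_ne_zero.mpr hm0)
        rwa [mul_zero] at this
      exact absurd h3 (not_lt.mpr h2)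
    · rintro j ⟨n, hn, h⟩
      by_cases hj : j < b ∧ j ∈ A
      · obtain ⟨hjb, hjA⟩ := hj
        refine ⟨n * (m * (j + 1) + 1), ?_, ?_⟩
        · intro h0
          have h1 : 0 < n := pos_iff_ne_zero.mpr hn
          have h2 : 0 < m * (j + 1) + 1 := pos_iff_ne_zero.mpr (n_succ_ne _)
          have h3 := n_mul_lt_mul h2 h1
          rw [h0, mul_zero] at h3
          exact lt_irrefl _ h3
        · intro i hi
          by_cases hij : i = j
          · subst hij
            exact ⟨fun _ => ⟨(n_lt_add_one_iff _ _).mpr le_rfl, hjA⟩, fun _ => Dvd.intro_left _ rfl⟩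
          · have h1 : (m * (i + 1) + 1) ∣ n * (m * (j + 1) + 1) ↔ (m * (i + 1) + 1) ∣ n :=
              ⟨coprime_aux hm hi hjb hij, fun h => Dvd.dvd.mul_right h _⟩
            rw [h1, h i hi, n_lt_succ]
            constructor
            · rintro ⟨h2, h3⟩; exact ⟨Or.inl h2, h3⟩
            · rintro ⟨h2 | h2, h3⟩
              · exact ⟨h2, h3⟩
              · exact absurd h2 hij
      · refine ⟨n, hn, fun i hi => ?_⟩
        rw [h i hi, n_lt_succ]
        constructor
        · rintro ⟨h2, h3⟩; exact ⟨Or.inl h2, h3⟩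
        · rintro ⟨h2 | h2, h3⟩
          · exact ⟨h2, h3⟩
          · subst h2
            exact absurd ⟨hi, h3⟩ hj
  obtain ⟨n, hn, h2⟩ := h b
  refine ⟨pair (pair b m) n, ⟨b, m, n, rfl⟩, (le_pair_left _ _).trans (le_pair_left _ _),
    fun i => ?_⟩
  rw [inCode_iff]
  constructor
  · rintro ⟨h3, h4⟩
    exact ⟨((h2 i h3).mp h4).2, h3⟩
  · rintro ⟨h3, h4⟩
    exact ⟨h4, (h2 i h4).mpr ⟨h4, h3⟩⟩

/-- Every bounded part of a set of the model has a (canonical) code. -/
theorem exists_code (A : Set M.N) (hA : A ∈ M.S) (b : M.N) :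
    ∃ w, IsCode w ∧ ∀ i, InCode i w ↔ (i ∈ A ∧ i < b) := by
  obtain ⟨w₀, h1, -, h2⟩ := exists_triple A hA b
  have hrec : Rec fun w : M.N => IsTriple w ∧ ∀ i, i < w + b → (InCode i w ↔ (i ∈ A ∧ i < b)) := by
    repeat' with_reducible first
      | apply Rec.isTriple | apply Rec.inCode | apply Rec.mem hA | exact RecF.id'
      | exact RecF.const _ | assumption | apply RecF.fst | apply RecF.snd | apply RecF.add
      | apply RecF.mul | apply RecF.pair | apply Rec.bex | apply Rec.ball | apply Rec.and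
      | apply Rec.or | apply Rec.not | apply Rec.iff | apply Rec.imp | apply Rec.eq
      | apply Rec.lt | apply Rec.le | apply Rec.dvd | apply RecF.prod
  have hb : ∀ w : M.N, (∀ i, i < w + b → (InCode i w ↔ (i ∈ A ∧ i < b))) ↔
      ∀ i, (InCode i w ↔ (i ∈ A ∧ i < b)) := by
    intro w
    constructor
    · intro h i
      constructor
      · intro h3
        exact (h i (h3.lt.trans_le le_self_add)).mp h3
      · intro h3
        exact (h i (h3.2.trans_le le_add_self)).mpr h3
    · intro h i _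
      exact h i
  obtain ⟨w, ⟨hw1, hw2⟩, hw3⟩ := hrec.least ⟨w₀, h1, fun i _ => h2 i⟩
  rw [hb] at hw2
  refine ⟨w, ⟨hw1, fun w' hw' ht h => hw3 w' hw' ⟨ht, ?_⟩⟩, hw2⟩
  rw [hb]
  intro i
  rw [h i, hw2 i]

/-! ### primitive recursion -/

theorem exists_recP (G : β × M.N × M.N → M.N) (hG : RecF G) (A : β → M.N) (hA : RecF A) :
    ∃ F : β × M.N → M.N, RecF F ∧ (∀ b, F (b, 0) = A b) ∧
      ∀ b n, F (b, n + 1) = G (b, n, F (b, n)) := by
  let Good : β → M.N → M.N → Prop := fun b n s => InCode (pair 0 (A b)) s ∧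
    (∀ i, i < n + 1 → ∃ y, y < s ∧ InCode (pair i y) s) ∧
    (∀ i, i < n + 1 → ∀ y, y < s → ∀ y', y' < s → (InCode (pair i y) s → (InCode (pair i y') s →
      y = y'))) ∧
    (∀ i, i < n → ∀ y, y < s → (InCode (pair i y) s → InCode (pair (i + 1) (G (b, i, y))) s))
  have hGood : Rec fun p : (β × M.N) × M.N => Good p.1.1 p.1.2 p.2 := by
    have hG' : ∀ {α : Type} [Cod M α] {F0 : α → β} {F1 F2 : α → M.N}, RecF F0 → RecF F1 →
        RecF F2 → RecF fun a => G (F0 a, F1 a, F2 a) :=
      fun h0 h1 h2 => hG.comp (h0.prod (h1.prod h2))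
    repeat' with_reducible first
      | apply Rec.inCode | apply hG' | apply RecF.comp hA | exact RecF.id' | exact RecF.const _
      | assumption | apply RecF.fst | apply RecF.snd | apply RecF.add | apply RecF.mul
      | apply RecF.pair | apply Rec.bex | apply Rec.ball | apply Rec.and | apply Rec.or
      | apply Rec.not | apply Rec.iff | apply Rec.imp | apply Rec.eq | apply Rec.lt
      | apply Rec.le | apply Rec.dvd | apply RecF.prod
  have hlt : ∀ {i y s : M.N}, InCode (pair i y) s → y < s := fun h =>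
    (le_pair_right _ _).trans_lt h.lt
  have hex : ∀ b n, ∃ s, Good b n s := by
    intro b
    have hGoodb : Rec fun p : M.N × M.N => Good b p.1 p.2 :=
      hGood.comp (F := fun p : M.N × M.N => ((b, p.1), p.2))
        (((RecF.const b).prod RecF.id'.fst).prod RecF.id'.snd)
    apply Rec.sig_ind hGoodb
    · obtain ⟨s, -, hs⟩ := exists_code {z | z = pair 0 (A b)}
        (Rec.eq RecF.id' (RecF.const _)).set (pair 0 (A b) + 1)
      have h1 : InCode (pair 0 (A b)) s := (hs _).mpr ⟨rfl, (n_lt_add_one_iff _ _).mpr le_rfl⟩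
      refine ⟨s, h1, ?_, ?_, ?_⟩
      · intro i hi
        rw [n_lt_add_one_iff, nonpos_iff_eq_zero] at hi
        subst hi
        exact ⟨A b, hlt h1, h1⟩
      · intro i hi y _ y' _ h2 h3
        have e2 := (pair_inj ((hs _).mp h2).1).2
        have e3 := (pair_inj ((hs _).mp h3).1).2
        rw [e2, e3]
      · intro i hi
        exact absurd hi (hM.out.not_lt_zero i)
    · rintro n ⟨s, hs1, hs2, hs3, hs4⟩
      obtain ⟨y, hy, hys⟩ := hs2 n ((n_lt_add_one_iff _ _).mpr le_rfl)
      have hrec : Rec fun z : M.N => (InCode z s ∧ ∀ u, u < z + 1 → z ≠ pair (n + 1) u) ∨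
          z = pair (n + 1) (G (b, n, y)) := by
        repeat' with_reducible first
          | apply Rec.inCode | exact RecF.id' | exact RecF.const _ | assumption | apply RecF.fst
          | apply RecF.snd | apply RecF.add | apply RecF.mul | apply RecF.pair | apply Rec.bex
          | apply Rec.ball | apply Rec.and | apply Rec.or | apply Rec.not | apply Rec.iff
          | apply Rec.imp | apply Rec.eq | apply Rec.lt | apply Rec.le | apply Rec.dvd
          | apply RecF.prod
      obtain ⟨s', -, hs'⟩ := exists_code _ hrec.set (s + pair (n + 1) (G (b, n, y)) + 1)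
      have hnew : InCode (pair (n + 1) (G (b, n, y))) s' :=
        (hs' _).mpr ⟨Or.inr rfl, (n_lt_add_one_iff _ _).mpr le_add_self⟩
      have hold : ∀ i u, i ≠ n + 1 → (InCode (pair i u) s' ↔ InCode (pair i u) s) := by
        intro i u hi
        rw [hs']
        constructor
        · rintro ⟨⟨h1, -⟩ | h1, -⟩
          · exact h1
          · exact absurd (pair_inj h1).1 hi
        · intro h1
          refine ⟨Or.inl ⟨h1, fun u' _ h2 => hi (pair_inj h2).1⟩, ?_⟩
          calc pair i u < s := h1.lt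
            _ ≤ s + pair (n + 1) (G (b, n, y)) := le_self_add
            _ ≤ _ := le_self_add
      have hnew' : ∀ u, InCode (pair (n + 1) u) s' → u = G (b, n, y) := by
        intro u hu
        rcases ((hs' _).mp hu).1 with ⟨-, h1⟩ | h1
        · exact absurd rfl (h1 u ((n_lt_add_one_iff _ _).mpr (le_pair_right _ _)))
        · exact (pair_inj h1).2
      have hcase : ∀ i, i < n + 1 + 1 → i = n + 1 ∨ (i ≠ n + 1 ∧ i < n + 1) := by
        intro i hi
        rcases (n_lt_succ i (n + 1)).mp hi with h1 | h1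
        · exact Or.inr ⟨h1.ne, h1⟩
        · exact Or.inl h1
      refine ⟨s', (hold 0 (A b) (n_succ_ne n).symm).mpr hs1, ?_, ?_, ?_⟩
      · intro i hi
        rcases hcase i hi with rfl | ⟨h1, h2⟩
        · exact ⟨_, hlt hnew, hnew⟩
        · obtain ⟨u, hu, hu2⟩ := hs2 i h2
          have := (hold i u h1).mpr hu2
          exact ⟨u, hlt this, this⟩
      · intro i hi u _ u' _ h3 h4
        rcases hcase i hi with rfl | ⟨h1, h2⟩
        · rw [hnew' u h3, hnew' u' h4]
        · rw [hold i u h1] at h3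
          rw [hold i u' h1] at h4
          exact hs3 i h2 u (hlt h3) u' (hlt h4) h3 h4
      · intro i hi u _ h3
        have h1 : i ≠ n + 1 := hi.ne
        rw [hold i u h1] at h3
        rcases (n_lt_succ i n).mp hi with h2 | h2
        · rw [hold (i + 1) _ (fun h => h2.ne (add_right_cancel h))]
          exact hs4 i h2 u (hlt h3) h3
        · subst h2
          have : u = y := hs3 i ((n_lt_add_one_iff _ _).mpr le_rfl) u (hlt h3) y hy h3 hys
          rw [this]
          exact hnew
  obtain ⟨S, hS, hS2⟩ := Rec.mu (α := β × M.N) (P := fun p s => Good p.1 p.2 s) hGood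
    (fun p => hex p.1 p.2)
  have hval : ∀ p : β × M.N, ∃ y, InCode (pair p.2 y) (S p) := by
    intro p
    obtain ⟨y, -, hy⟩ := (hS2 p).1.2.1 p.2 ((n_lt_add_one_iff _ _).mpr le_rfl)
    exact ⟨y, hy⟩
  obtain ⟨F, hF, hF2⟩ := Rec.mu (α := β × M.N) (P := fun p y => InCode (pair p.2 y) (S p))
    (Rec.inCode (RecF.id'.fst.snd.pair RecF.id'.snd) (hS.comp RecF.id'.fst)) hval
  have huniq : ∀ b n i y y', i < n + 1 → InCode (pair i y) (S (b, n)) →
      InCode (pair i y') (S (b, n)) → y = y' := fun b n i y y' hi h1 h2 =>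
    (hS2 (b, n)).1.2.2.1 i hi y (hlt h1) y' (hlt h2) h1 h2
  refine ⟨F, hF, fun b => huniq b 0 0 _ _ (by simp) (hF2 (b, 0)).1 (hS2 (b, 0)).1.1, ?_⟩
  intro b n
  -- the sequences `S n` and `S (n+1)` agree up to `n`
  have hagree : ∀ i, i < n + 1 → ∀ y, y < S (b, n) → ∀ y', y' < S (b, n + 1) →
      (InCode (pair i y) (S (b, n)) → (InCode (pair i y') (S (b, n + 1)) → y = y')) := by
    apply Rec.ind
    · repeat' with_reducible first
        | apply Rec.inCode | exact RecF.id' | exact RecF.const _ | assumption | apply RecF.fst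
        | apply RecF.snd | apply RecF.add | apply RecF.mul | apply RecF.pair | apply Rec.bex
        | apply Rec.ball | apply Rec.and | apply Rec.or | apply Rec.not | apply Rec.iff
        | apply Rec.imp | apply Rec.eq | apply Rec.lt | apply Rec.le | apply Rec.dvd
        | apply RecF.prod
    · intro h0 y _ y' _ h1 h2
      have e1 := huniq b n 0 _ _ h0 h1 (hS2 (b, n)).1.1
      have e2 := huniq b (n + 1) 0 _ _ (pos_iff_ne_zero.mpr (n_succ_ne _)) h2
        (hS2 (b, n + 1)).1.1
      rw [e1, e2]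
    · intro i ih hi y _ y' _ h1 h2
      have hi' : i < n := (add_lt_add_iff_right 1).mp hi
      have hi1 : i < n + 1 := hi'.trans ((n_lt_add_one_iff _ _).mpr le_rfl)
      obtain ⟨z, hz, hz2⟩ := (hS2 (b, n)).1.2.1 i hi1
      obtain ⟨z', hz', hz2'⟩ := (hS2 (b, n + 1)).1.2.1 i
        (hi1.trans ((n_lt_add_one_iff _ _).mpr le_rfl))
      have e := ih hi1 z hz z' hz' hz2 hz2'
      subst e
      have e1 := (hS2 (b, n)).1.2.2.2 i hi' z hz hz2
      have e2 := (hS2 (b, n + 1)).1.2.2.2 i hi1 z hz' hz2'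
      have e3 := huniq b n (i + 1) _ _ hi h1 e1
      have e4 := huniq b (n + 1) (i + 1) _ _ (hi.trans ((n_lt_add_one_iff _ _).mpr le_rfl)) h2 e2
      rw [e3, e4]
  obtain ⟨z, hz, hz2⟩ := (hS2 (b, n + 1)).1.2.1 n (((n_lt_add_one_iff _ _).mpr le_rfl).trans
    ((n_lt_add_one_iff _ _).mpr le_rfl))
  have e1 : F (b, n) = z := hagree n ((n_lt_add_one_iff _ _).mpr le_rfl) _ (hlt (hF2 (b, n)).1) _
    hz (hF2 (b, n)).1 hz2
  have e2 := (hS2 (b, n + 1)).1.2.2.2 n ((n_lt_add_one_iff _ _).mpr le_rfl) z hz hz2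
  rw [e1]
  exact huniq b (n + 1) (n + 1) _ _ ((n_lt_add_one_iff _ _).mpr le_rfl) (hF2 (b, n + 1)).1 e2

theorem exists_rec (G : M.N × M.N → M.N) (hG : RecF G) (a : M.N) :
    ∃ F : M.N → M.N, RecF F ∧ F 0 = a ∧ ∀ n, F (n + 1) = G (n, F n) := by
  obtain ⟨F, hF, h0, hs⟩ := exists_recP (β := M.N) (fun p => G p.2) (hG.comp RecF.id'.snd)
    (fun _ => a) (RecF.const a)
  exact ⟨fun n => F (0, n), hF.comp ((RecF.const 0).prod RecF.id'), h0 0, fun n => hs 0 n⟩

/-! ### a recursive bound for codes -/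

theorem exists_bound : ∃ B : M.N → M.N, RecF B ∧ ∀ A ∈ M.S, ∀ b, ∃ w, IsCode w ∧ w ≤ B b ∧
    ∀ i, InCode i w ↔ (i ∈ A ∧ i < b) := by
  obtain ⟨m, hm, hm2⟩ := Rec.mu (α := M.N) (P := fun b m => m ≠ 0 ∧ ∀ i, i < b → (i + 1) ∣ m)
    (by
      repeat' with_reducible first
        | exact RecF.id' | exact RecF.const _ | assumption | apply RecF.fst | apply RecF.snd
        | apply RecF.add | apply RecF.mul | apply RecF.pair | apply Rec.bex | apply Rec.ball
        | apply Rec.and | apply Rec.or | apply Rec.not | apply Rec.iff | apply Rec.imp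
        | apply Rec.eq | apply Rec.lt | apply Rec.le | apply Rec.dvd | apply RecF.prod)
    (by
      intro b
      obtain ⟨m, h1, h2⟩ := exists_mult b
      exact ⟨m, h1, fun i hi => h2 _ (pos_iff_ne_zero.mpr (n_succ_ne i))
        ((n_add_one_le_iff _ _).mpr hi)⟩)
  obtain ⟨P, hP, hP0, hPs⟩ := exists_recP (β := M.N)
    (fun p => p.2.2 * (m p.1 * (p.2.1 + 1) + 1))
    (by
      repeat' with_reducible first
        | apply RecF.comp hm | exact RecF.id' | exact RecF.const _ | assumption | apply RecF.fst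
        | apply RecF.snd | apply RecF.add | apply RecF.mul | apply RecF.pair | apply Rec.bex
        | apply Rec.ball | apply Rec.and | apply Rec.or | apply Rec.not | apply Rec.iff
        | apply Rec.imp | apply Rec.eq | apply Rec.lt | apply Rec.le | apply Rec.dvd
        | apply RecF.prod)
    (fun _ => 1) (RecF.const 1)
  refine ⟨fun b => pair (pair b (m b)) (P (b, b)), ?_, ?_⟩
  · repeat' with_reducible first
      | apply RecF.comp hm | apply RecF.comp hP | exact RecF.id' | exact RecF.const _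
      | assumption | apply RecF.fst | apply RecF.snd | apply RecF.add | apply RecF.mul
      | apply RecF.pair | apply Rec.bex | apply Rec.ball | apply Rec.and | apply Rec.or
      | apply Rec.not | apply Rec.iff | apply Rec.imp | apply Rec.eq | apply Rec.lt
      | apply Rec.le | apply Rec.dvd | apply RecF.prod
  intro A hA b
  have hm0 := (hm2 b).1.1
  have hmd : ∀ d, 0 < d → d ≤ b → d ∣ m b := by
    intro d hd hdb
    obtain ⟨e, rfl | rfl⟩ := n_eq_zero_or_succ d
    · exact absurd hd (lt_irrefl _)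
    · exact (hm2 b).1.2 e ((n_add_one_le_iff _ _).mp hdb)
  have h : ∀ j : M.N, ∃ n : M.N, n ≠ 0 ∧ (n ≤ P (b, j) ∧ ∀ i, i < b →
      ((m b * (i + 1) + 1) ∣ n ↔ (i < j ∧ i ∈ A))) := by
    apply Rec.sig_ind (P := fun j n : M.N => n ≠ 0 ∧ (n ≤ P (b, j) ∧ ∀ i, i < b →
      ((m b * (i + 1) + 1) ∣ n ↔ (i < j ∧ i ∈ A))))
    · repeat' with_reducible first
        | apply Rec.mem hA | apply RecF.comp hP | exact RecF.id' | exact RecF.const _
        | assumption | apply RecF.fst | apply RecF.snd | apply RecF.add | apply RecF.mul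
        | apply RecF.pair | apply Rec.bex | apply Rec.ball | apply Rec.and | apply Rec.or
        | apply Rec.not | apply Rec.iff | apply Rec.imp | apply Rec.eq | apply Rec.lt
        | apply Rec.le | apply Rec.dvd | apply RecF.prod
    · refine ⟨1, one_ne_zero, (hP0 b).ge, fun i hi => ⟨fun h => ?_, fun h => absurd h.1
        (hM.out.not_lt_zero i)⟩⟩
      obtain ⟨q, hq⟩ := h
      have hq0 : q ≠ 0 := by
        rintro rfl
        rw [mul_zero] at hq
        exact one_ne_zero hq
      have h1 : (m b * (i + 1) + 1) ≤ (m b * (i + 1) + 1) * q := by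
        obtain ⟨e, rfl | rfl⟩ := n_eq_zero_or_succ q
        · exact absurd rfl hq0
        · rw [n_le_iff]; exact ⟨(m b * (i + 1) + 1) * e, by ring⟩
      rw [← hq] at h1
      have h2 : m b * (i + 1) ≤ 0 := by
        have : m b * (i + 1) + 1 ≤ 0 + 1 := by rwa [zero_add]
        exact (add_le_add_iff_right 1).mp this
      have h3 : 0 < m b * (i + 1) := by
        have := n_mul_lt_mul (pos_iff_ne_zero.mpr (n_succ_ne i)) (pos_iff_ne_zero.mpr hm0)
        rwa [mul_zero] at this
      exact absurd h3 (not_lt.mpr h2)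
    · rintro j ⟨n, hn, hnP, h⟩
      have hPj : P (b, j + 1) = P (b, j) * (m b * (j + 1) + 1) := hPs b j
      by_cases hj : j < b ∧ j ∈ A
      · obtain ⟨hjb, hjA⟩ := hj
        refine ⟨n * (m b * (j + 1) + 1), ?_, ?_, ?_⟩
        · intro h0
          have h1 : 0 < n := pos_iff_ne_zero.mpr hn
          have h2 : 0 < m b * (j + 1) + 1 := pos_iff_ne_zero.mpr (n_succ_ne _)
          have h3 := n_mul_lt_mul h2 h1
          rw [h0, mul_zero] at h3
          exact lt_irrefl _ h3
        · rw [hPj]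
          exact mul_le_mul_left hnP _
        · intro i hi
          by_cases hij : i = j
          · subst hij
            exact ⟨fun _ => ⟨(n_lt_add_one_iff _ _).mpr le_rfl, hjA⟩, fun _ => Dvd.intro_left _ rfl⟩
          · have h1 : (m b * (i + 1) + 1) ∣ n * (m b * (j + 1) + 1) ↔ (m b * (i + 1) + 1) ∣ n :=
              ⟨coprime_aux hmd hi hjb hij, fun h => Dvd.dvd.mul_right h _⟩
            rw [h1, h i hi, n_lt_succ]
            constructor
            · rintro ⟨h2, h3⟩; exact ⟨Or.inl h2, h3⟩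
            · rintro ⟨h2 | h2, h3⟩
              · exact ⟨h2, h3⟩
              · exact absurd h2 hij
      · refine ⟨n, hn, ?_, fun i hi => ?_⟩
        · rw [hPj]
          refine hnP.trans ?_
          rw [n_le_iff]
          exact ⟨P (b, j) * (m b * (j + 1)), by ring⟩
        rw [h i hi, n_lt_succ]
        constructor
        · rintro ⟨h2, h3⟩; exact ⟨Or.inl h2, h3⟩
        · rintro ⟨h2 | h2, h3⟩
          · exact ⟨h2, h3⟩
          · subst h2
            exact absurd ⟨hi, h3⟩ hj
  obtain ⟨n, hn, hnP, h2⟩ := h b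
  have h3 : ∀ i, InCode i (pair (pair b (m b)) n) ↔ (i ∈ A ∧ i < b) := by
    intro i
    rw [inCode_iff]
    constructor
    · rintro ⟨h3, h4⟩
      exact ⟨((h2 i h3).mp h4).2, h3⟩
    · rintro ⟨h3, h4⟩
      exact ⟨h4, (h2 i h4).mpr ⟨h4, h3⟩⟩
  obtain ⟨w, hw, hw2⟩ := exists_code A hA b
  refine ⟨w, hw, ?_, hw2⟩
  have h4 : w ≤ pair (pair b (m b)) n := by
    by_contra hc
    rw [not_le] at hc
    exact hw.2 _ hc ⟨_, _, _, rfl⟩ (fun i => (h3 i).trans (hw2 i).symm)
  refine h4.trans ?_
  unfold pair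
  have h5 : pair b (m b) + n ≤ pair b (m b) + P (b, b) := add_le_add_right hnP _
  exact add_le_add_left (mul_le_mul' h5 h5) _

end Pool.Agent.Helper63.RCA
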