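import Mathlib
import Pool.Agent.Helper63.RCA.Code

/-!
# The Rado graph inside a model of `RCA₀`
-/

set_option autoImplicit false
set_option linter.unreachableTactic false
set_option linter.unusedTactic false

namespace Pool.Agent.Helper63.RCA

variable {M : L2Structure} [hM : RCA0 M] {α β γ : Type} [Cod M α] [Cod M β] [Cod M γ]

/-- codes of finite sets can be found recursively -/
theorem exists_mkCode {P : α → M.N → Prop} (hP : Rec fun p : α × M.N => P p.1 p.2) {B : α → M.N}
    (hB : RecF B) : ∃ C : α → M.N, RecF C ∧ ∀ a, IsCode (C a) ∧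
      ∀ i, InCode i (C a) ↔ (P a i ∧ i < B a) := by
  have hP' : ∀ {α' : Type} [Cod M α'] {F1 : α' → α} {F2 : α' → M.N}, RecF F1 → RecF F2 →
      Rec fun a => P (F1 a) (F2 a) := fun h1 h2 => hP.comp (h1.prod h2)
  have hb : ∀ a w, (∀ i, i < w + B a → (InCode i w ↔ (P a i ∧ i < B a))) ↔
      ∀ i, (InCode i w ↔ (P a i ∧ i < B a)) := by
    intro a w
    constructor
    · intro h i
      constructor
      · intro h3
        exact (h i (h3.lt.trans_le le_self_add)).mp h3
      · intro h3
        exact (h i (h3.2.trans_le le_add_self)).mpr h3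
    · intro h i _
      exact h i
  obtain ⟨C, hC, hC2⟩ := Rec.mu (α := α) (P := fun a w => IsCode w ∧
      ∀ i, i < w + B a → (InCode i w ↔ (P a i ∧ i < B a)))
    (by
      repeat' with_reducible first
        | apply Rec.inCode | apply Rec.isCode | apply hP' | apply RecF.comp hB | exact RecF.id'
        | exact RecF.const _ | assumption | apply RecF.fst | apply RecF.snd | apply RecF.add
        | apply RecF.mul | apply RecF.pair | apply Rec.bex | apply Rec.ball | apply Rec.and
        | apply Rec.or | apply Rec.not | apply Rec.iff | apply Rec.imp | apply Rec.eq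
        | apply Rec.lt | apply Rec.le | apply Rec.dvd | apply RecF.prod)
    (by
      intro a
      have hsec : Rec fun x => P a x := hP' (RecF.const a) RecF.id'
      obtain ⟨w, hw, hw2⟩ := exists_code _ hsec.set (B a)
      exact ⟨w, hw, fun i _ => hw2 i⟩)
  exact ⟨C, hC, fun a => ⟨(hC2 a).1.1, (hb a _).mp (hC2 a).1.2⟩⟩

theorem Rec.adj {E : Set M.N} (hE : E ∈ M.S) {F G : α → M.N} (hF : RecF F) (hG : RecF G) :
    Rec fun a => Adj E (F a) (G a) := Rec.mem hE (hF.pair hG)

/-- An increasing recursive embedding of the graph `(N, E)` into its induced subgraph on `X`, if the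
latter is a Rado graph. -/
theorem exists_embedding {E X : Set M.N} (hE : E ∈ M.S) (hG : IsGraph E) (hX : X ∈ M.S)
    (hR : IsRado E X) : ∃ F : M.N → M.N, RecF F ∧ (∀ i j, i < j → F i < F j) ∧ (∀ i, F i ∈ X) ∧
      ∀ i j, Adj E (F i) (F j) ↔ Adj E i j := by
  have hlt : ∀ {i y s : M.N}, InCode (pair i y) s → y < s := fun h =>
    (le_pair_right _ _).trans_lt h.lt
  let Valid : M.N → M.N → Prop := fun n s =>
    (∀ t, t < s → (InCode t s → ∃ i, i < n ∧ ∃ y, y < s ∧ (t = pair i y ∧ y ∈ X))) ∧
    (∀ i, i < n → ∀ i', i' < n → ∀ y, y < s → (InCode (pair i y) s → (InCode (pair i' y) s →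
      i = i')))
  let Next : M.N → M.N → M.N → Prop := fun n s z => z ∈ X ∧ ∀ i, i < n → ∀ y, y < s →
    (InCode (pair i y) s → (y < z ∧ (Adj E z y ↔ Adj E n i)))
  have hValid : ∀ {α' : Type} [Cod M α'] {F1 : α' → M.N} {F2 : α' → M.N}, RecF F1 → RecF F2 →
      Rec fun a => Valid (F1 a) (F2 a) := by
    intro α' _ F1 F2 h1 h2
    have : Rec fun p : M.N × M.N => Valid p.1 p.2 := by
      repeat' with_reducible first
        | apply Rec.inCode | apply Rec.mem hX | exact RecF.id' | exact RecF.const _ | assumption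
        | apply RecF.fst | apply RecF.snd | apply RecF.add | apply RecF.mul | apply RecF.pair
        | apply Rec.bex | apply Rec.ball | apply Rec.and | apply Rec.or | apply Rec.not
        | apply Rec.iff | apply Rec.imp | apply Rec.eq | apply Rec.lt | apply Rec.le
        | apply Rec.dvd | apply RecF.prod
    exact this.comp (h1.prod h2)
  have hNext : ∀ {α' : Type} [Cod M α'] {F1 : α' → M.N} {F2 : α' → M.N} {F3 : α' → M.N},
      RecF F1 → RecF F2 → RecF F3 → Rec fun a => Next (F1 a) (F2 a) (F3 a) := by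
    intro α' _ F1 F2 F3 h1 h2 h3
    have : Rec fun p : M.N × M.N × M.N => Next p.1 p.2.1 p.2.2 := by
      repeat' with_reducible first
        | apply Rec.inCode | apply Rec.mem hX | apply Rec.adj hE | exact RecF.id'
        | exact RecF.const _ | assumption | apply RecF.fst | apply RecF.snd | apply RecF.add
        | apply RecF.mul | apply RecF.pair | apply Rec.bex | apply Rec.ball | apply Rec.and
        | apply Rec.or | apply Rec.not | apply Rec.iff | apply Rec.imp | apply Rec.eq
        | apply Rec.lt | apply Rec.le | apply Rec.dvd | apply RecF.prod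
    exact this.comp (h1.prod (h2.prod h3))
  have hex : ∀ n s, Valid n s → ∃ z, Next n s z := by
    rintro n s ⟨hv1, hv2⟩
    have hVrec : Rec fun y : M.N => ∃ i, i < n ∧ (InCode (pair i y) s ∧ ¬ Adj E n i) := by
      repeat' with_reducible first
        | apply Rec.inCode | apply Rec.mem hX | apply Rec.adj hE | exact RecF.id'
        | exact RecF.const _ | assumption | apply RecF.fst | apply RecF.snd | apply RecF.add
        | apply RecF.mul | apply RecF.pair | apply Rec.bex | apply Rec.ball | apply Rec.and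
        | apply Rec.or | apply Rec.not | apply Rec.iff | apply Rec.imp | apply Rec.eq
        | apply Rec.lt | apply Rec.le | apply Rec.dvd | apply RecF.prod
    have hUrec : Rec fun y : M.N => y ∈ X ∧
        ¬ ∃ i, i < n ∧ (InCode (pair i y) s ∧ ¬ Adj E n i) := by
      repeat' with_reducible first
        | apply Rec.inCode | apply Rec.mem hX | apply Rec.adj hE | exact RecF.id'
        | exact RecF.const _ | assumption | apply RecF.fst | apply RecF.snd | apply RecF.add
        | apply RecF.mul | apply RecF.pair | apply Rec.bex | apply Rec.ball | apply Rec.and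
        | apply Rec.or | apply Rec.not | apply Rec.iff | apply Rec.imp | apply Rec.eq
        | apply Rec.lt | apply Rec.le | apply Rec.dvd | apply RecF.prod
    obtain ⟨v, hv, hvm⟩ := exists_code _ hVrec.set s
    obtain ⟨u, hu, hum⟩ := exists_code _ hUrec.set s
    have hXs : ∀ i y, InCode (pair i y) s → y ∈ X := by
      intro i y h
      obtain ⟨i', -, y', -, h1, h2⟩ := hv1 _ h.lt h
      rw [(pair_inj h1).2]; exact h2
    obtain ⟨z, hzX, hzu, hzv, hzu', hzv'⟩ := hR u v hu hv (fun i hi => ((hum i).mp hi).1.1)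
      (fun i hi => by
        obtain ⟨⟨j, -, h1, -⟩, -⟩ := (hvm i).mp hi
        exact hXs _ _ h1)
      (fun i hi => ((hum i).mp hi.1).1.2 ((hvm i).mp hi.2).1)
    have hzs : s ≤ z := by
      by_contra hc
      rw [not_le] at hc
      by_cases hz : ∃ i, i < n ∧ (InCode (pair i z) s ∧ ¬ Adj E n i)
      · exact hzv ((hvm z).mpr ⟨hz, hc⟩)
      · exact hzu ((hum z).mpr ⟨⟨hzX, hz⟩, hc⟩)
    refine ⟨z, hzX, fun i hi y hy hiy => ⟨hy.trans_le hzs, ?_⟩⟩
    constructor
    · intro h1
      by_contra h2
      exact hzv' y ((hvm y).mpr ⟨⟨i, hi, hiy, h2⟩, hy⟩) h1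
    · intro h1
      apply hzu' y ((hum y).mpr ⟨⟨hXs _ _ hiy, ?_⟩, hy⟩)
      rintro ⟨i', hi', h2, h3⟩
      have := hv2 i hi i' hi' y hy hiy h2
      subst this
      exact h3 h1
  obtain ⟨Z, hZ, hZ2⟩ := Rec.mu (α := M.N × M.N) (P := fun p z => Valid p.1 p.2 → Next p.1 p.2 z)
    (by
      repeat' with_reducible first
        | apply hValid | apply hNext | exact RecF.id' | exact RecF.const _ | assumption
        | apply RecF.fst | apply RecF.snd | apply RecF.add | apply RecF.mul | apply RecF.pair
        | apply Rec.bex | apply Rec.ball | apply Rec.and | apply Rec.or | apply Rec.not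
        | apply Rec.iff | apply Rec.imp | apply Rec.eq | apply Rec.lt | apply Rec.le
        | apply Rec.dvd | apply RecF.prod)
    (by
      rintro ⟨n, s⟩
      by_cases h : Valid n s
      · obtain ⟨z, hz⟩ := hex n s h
        exact ⟨z, fun _ => hz⟩
      · exact ⟨0, fun h' => absurd h' h⟩)
  obtain ⟨G, hGr, hG2⟩ := exists_mkCode (α := M.N × M.N)
    (P := fun p t => InCode t p.2 ∨ t = pair p.1 (Z p))
    (by
      repeat' with_reducible first
        | apply Rec.inCode | apply RecF.comp hZ | exact RecF.id' | exact RecF.const _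
        | assumption | apply RecF.fst | apply RecF.snd | apply RecF.add | apply RecF.mul
        | apply RecF.pair | apply Rec.bex | apply Rec.ball | apply Rec.and | apply Rec.or
        | apply Rec.not | apply Rec.iff | apply Rec.imp | apply Rec.eq | apply Rec.lt
        | apply Rec.le | apply Rec.dvd | apply RecF.prod)
    (B := fun p => p.2 + pair p.1 (Z p) + 1)
    (by
      repeat' with_reducible first
        | apply Rec.inCode | apply RecF.comp hZ | exact RecF.id' | exact RecF.const _
        | assumption | apply RecF.fst | apply RecF.snd | apply RecF.add | apply RecF.mul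
        | apply RecF.pair | apply Rec.bex | apply Rec.ball | apply Rec.and | apply Rec.or
        | apply Rec.not | apply Rec.iff | apply Rec.imp | apply Rec.eq | apply Rec.lt
        | apply Rec.le | apply Rec.dvd | apply RecF.prod)
  have hG3 : ∀ n s t, InCode t (G (n, s)) ↔ (InCode t s ∨ t = pair n (Z (n, s))) := by
    intro n s t
    rw [(hG2 (n, s)).2 t]
    constructor
    · exact fun h => h.1
    · intro h
      refine ⟨h, (n_lt_add_one_iff _ _).mpr ?_⟩
      rcases h with h | h
      · exact h.lt.le.trans le_self_add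
      · rw [h]; exact le_add_self
  obtain ⟨e₀, -, he₀⟩ := exists_code (∅ : Set M.N) (by
    have := (Rec.const (α := M.N) False).set
    simpa using this) 0
  obtain ⟨C, hC, hC0, hCs⟩ := exists_rec G hGr e₀
  have hCe : ∀ t, ¬ InCode t (C 0) := by
    intro t ht
    rw [hC0] at ht
    exact ((he₀ t).mp ht).1
  let F : M.N → M.N := fun n => Z (n, C n)
  have hF : RecF F := hZ.comp (RecF.id'.prod hC)
  have hCs' : ∀ n t, InCode t (C (n + 1)) ↔ (InCode t (C n) ∨ t = pair n (F n)) := by
    intro n t
    rw [hCs n]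
    exact hG3 n (C n) t
  have hV : ∀ n, Valid n (C n) := by
    apply Rec.ind
    · exact hValid RecF.id' hC
    · refine ⟨fun t _ ht => absurd ht (hCe t), fun i hi => absurd hi (hM.out.not_lt_zero i)⟩
    · intro n ih
      have hN := (hZ2 (n, C n)).1 ih
      refine ⟨fun t _ ht => ?_, fun i _ i' _ y _ h1 h2 => ?_⟩
      · rcases (hCs' n t).mp ht with h1 | h1
        · obtain ⟨i, hi, y, hy, h2, h3⟩ := ih.1 t h1.lt h1
          refine ⟨i, hi.trans ((n_lt_add_one_iff _ _).mpr le_rfl), y, ?_, h2, h3⟩
          rw [h2] at ht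
          exact hlt ht
        · refine ⟨n, (n_lt_add_one_iff _ _).mpr le_rfl, F n, ?_, h1, hN.1⟩
          rw [h1] at ht
          exact hlt ht
      · rw [hCs'] at h1 h2
        have hdom : ∀ i y, InCode (pair i y) (C n) → i < n := by
          intro i y h
          obtain ⟨j, hj, y', -, h4, -⟩ := ih.1 _ h.lt h
          rw [(pair_inj h4).1]
          exact hj
        rcases h1 with h1 | h1 <;> rcases h2 with h2 | h2
        · exact ih.2 i (hdom _ _ h1) i' (hdom _ _ h2) y (hlt h1) h1 h2
        · have e := pair_inj h2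
          have := (hN.2 i (hdom _ _ h1) y (hlt h1) h1).1
          rw [e.2] at this
          exact absurd this (lt_irrefl _)
        · have e := pair_inj h1
          have := (hN.2 i' (hdom _ _ h2) y (hlt h2) h2).1
          rw [e.2] at this
          exact absurd this (lt_irrefl _)
        · rw [(pair_inj h1).1, (pair_inj h2).1]
  have hN : ∀ n, Next n (C n) (F n) := fun n => (hZ2 (n, C n)).1 (hV n)
  have hIn : ∀ n, ∀ i, i < n → InCode (pair i (F i)) (C n) := by
    apply Rec.ind
    · repeat' with_reducible first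
        | apply Rec.inCode | apply RecF.comp hF | apply RecF.comp hC | exact RecF.id'
        | exact RecF.const _ | assumption | apply RecF.fst | apply RecF.snd | apply RecF.add
        | apply RecF.mul | apply RecF.pair | apply Rec.bex | apply Rec.ball | apply Rec.and
        | apply Rec.or | apply Rec.not | apply Rec.iff | apply Rec.imp | apply Rec.eq
        | apply Rec.lt | apply Rec.le | apply Rec.dvd | apply RecF.prod
    · intro i hi
      exact absurd hi (hM.out.not_lt_zero i)
    · intro n ih i hi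
      rw [hCs']
      rcases (n_lt_succ i n).mp hi with h | h
      · exact Or.inl (ih i h)
      · rw [h]; exact Or.inr rfl
  have hkey : ∀ i n, i < n → F i < F n ∧ (Adj E (F n) (F i) ↔ Adj E n i) := by
    intro i n hi
    have h1 := hIn n i hi
    exact (hN n).2 i hi (F i) (hlt h1) h1
  refine ⟨F, hF, fun i j h => (hkey i j h).1, fun i => (hN i).1, fun i j => ?_⟩
  rcases lt_trichotomy i j with h | h | h
  · constructor
    · intro h1
      exact hG.2 _ _ ((hkey i j h).2.mp (hG.2 _ _ h1))
    · intro h1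
      exact hG.2 _ _ ((hkey i j h).2.mpr (hG.2 _ _ h1))
  · subst h
    exact ⟨fun h => absurd h (hG.1 _), fun h => absurd h (hG.1 _)⟩
  · exact (hkey j i h).2

/-- copies of a finite graph are preserved and reflected by embeddings -/
theorem isCopy_image {E : Set M.N} {F : M.N → M.N} (hF : RecF F)
    (hmono : ∀ i j, i < j → F i < F j)
    (hAdj : ∀ i j, Adj E (F i) (F j) ↔ Adj E i j) {s e w w' : M.N} (hw : IsCode w)
    (hw' : IsCode w') (hww : ∀ j, InCode j w' ↔ ∃ i, InCode i w ∧ j = F i) :
    IsCopy E s e w ↔ IsCopy E s e w' := by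
  have hinj : ∀ i j, F i = F j → i = j := by
    intro i j h
    rcases lt_trichotomy i j with h1 | h1 | h1
    · exact absurd h (hmono i j h1).ne
    · exact h1
    · exact absurd h (hmono j i h1).ne'
  constructor
  · rintro ⟨-, f, -, h1, h2, h3⟩
    refine ⟨hw', ?_⟩
    have hrec : Rec fun z : M.N => ∃ x, x < w ∧ ∃ i, i < s ∧
        (InCode x w ∧ (InCode (pair x i) f ∧ z = pair (F x) i)) := by
      repeat' with_reducible first
        | apply Rec.inCode | apply RecF.comp hF | exact RecF.id' | exact RecF.const _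
        | assumption | apply RecF.fst | apply RecF.snd | apply RecF.add | apply RecF.mul
        | apply RecF.pair | apply Rec.bex | apply Rec.ball | apply Rec.and | apply Rec.or
        | apply Rec.not | apply Rec.iff | apply Rec.imp | apply Rec.eq | apply Rec.lt
        | apply Rec.le | apply Rec.dvd | apply RecF.prod
    obtain ⟨f', hf', hf'2⟩ := exists_code _ hrec.set (pair (F w) s)
    have hmem : ∀ x i, InCode x w → i < s → (InCode (pair (F x) i) f' ↔ InCode (pair x i) f) := by
      intro x i hx hi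
      rw [hf'2]
      constructor
      · rintro ⟨⟨x', -, i', -, -, h4, h5⟩, -⟩
        obtain ⟨h6, rfl⟩ := pair_inj h5
        rw [hinj _ _ h6]
        exact h4
      · intro h4
        exact ⟨⟨x, hx.lt, i, hi, hx, h4, rfl⟩, pair_lt_pair (hmono _ _ hx.lt) hi⟩
    refine ⟨f', hf', ?_, ?_, ?_⟩
    · intro y hy
      obtain ⟨x, hx, rfl⟩ := (hww y).mp hy
      obtain ⟨i, hi, h4⟩ := h1 x hx
      exact ⟨i, hi, (hmem x i hx hi).mpr h4⟩
    · intro i hi
      obtain ⟨x, hx, h4⟩ := h2 i hi
      exact ⟨F x, (hww _).mpr ⟨x, hx, rfl⟩, (hmem x i hx hi).mpr h4⟩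
    · intro x' y' i j hx' hy' hi hj h4 h5
      obtain ⟨x, hx, rfl⟩ := (hww x').mp hx'
      obtain ⟨y, hy, rfl⟩ := (hww y').mp hy'
      rw [hmem x i hx hi] at h4
      rw [hmem y j hy hj] at h5
      obtain ⟨h6, h7⟩ := h3 x y i j hx hy hi hj h4 h5
      refine ⟨?_, ?_⟩
      · rw [← h6]
        exact ⟨hinj x y, fun h => by rw [h]⟩
      · rw [hAdj, h7]
  · rintro ⟨-, f, -, h1, h2, h3⟩
    refine ⟨hw, ?_⟩
    have hrec : Rec fun z : M.N => ∃ x, x < w ∧ ∃ i, i < s ∧
        (InCode (pair (F x) i) f ∧ z = pair x i) := by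
      repeat' with_reducible first
        | apply Rec.inCode | apply RecF.comp hF | exact RecF.id' | exact RecF.const _
        | assumption | apply RecF.fst | apply RecF.snd | apply RecF.add | apply RecF.mul
        | apply RecF.pair | apply Rec.bex | apply Rec.ball | apply Rec.and | apply Rec.or
        | apply Rec.not | apply Rec.iff | apply Rec.imp | apply Rec.eq | apply Rec.lt
        | apply Rec.le | apply Rec.dvd | apply RecF.prod
    obtain ⟨f', hf', hf'2⟩ := exists_code _ hrec.set (pair w s)
    have hmem : ∀ x i, InCode x w → i < s → (InCode (pair x i) f' ↔ InCode (pair (F x) i) f) := by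
      intro x i hx hi
      rw [hf'2]
      constructor
      · rintro ⟨⟨x', -, i', -, h4, h5⟩, -⟩
        obtain ⟨rfl, rfl⟩ := pair_inj h5
        exact h4
      · intro h4
        exact ⟨⟨x, hx.lt, i, hi, h4, rfl⟩, pair_lt_pair hx.lt hi⟩
    refine ⟨f', hf', ?_, ?_, ?_⟩
    · intro x hx
      obtain ⟨i, hi, h4⟩ := h1 (F x) ((hww _).mpr ⟨x, hx, rfl⟩)
      exact ⟨i, hi, (hmem x i hx hi).mpr h4⟩
    · intro i hi
      obtain ⟨y, hy, h4⟩ := h2 i hi
      obtain ⟨x, hx, rfl⟩ := (hww y).mp hy
      exact ⟨x, hx, (hmem x i hx hi).mpr h4⟩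
    · intro x y i j hx hy hi hj h4 h5
      rw [hmem x i hx hi] at h4
      rw [hmem y j hy hj] at h5
      obtain ⟨h6, h7⟩ := h3 (F x) (F y) i j ((hww _).mpr ⟨x, hx, rfl⟩) ((hww _).mpr ⟨y, hy, rfl⟩)
        hi hj h4 h5
      refine ⟨?_, ?_⟩
      · rw [← h6]
        exact ⟨fun h => by rw [h], hinj x y⟩
      · rw [← hAdj, h7]

/-! ### the set of copies exists -/

theorem isIso_iff_bdd (E : Set M.N) (s e w f : M.N) : IsIso E s e w f ↔
    ((∀ x, x < w → (InCode x w → ∃ i, i < s ∧ InCode (pair x i) f)) ∧
    ((∀ i, i < s → ∃ x, x < w ∧ (InCode x w ∧ InCode (pair x i) f)) ∧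
    (∀ x, x < w → ∀ y, y < w → ∀ i, i < s → ∀ j, j < s → (InCode x w → (InCode y w →
      (InCode (pair x i) f → (InCode (pair y j) f → ((x = y ↔ i = j) ∧
        (Adj E x y ↔ InCode (pair i j) e))))))))) := by
  constructor
  · rintro ⟨h1, h2, h3⟩
    refine ⟨fun x _ hx => h1 x hx, fun i hi => ?_, fun x _ y _ i hi j hj hx hy => h3 x y i j hx hy hi hj⟩
    obtain ⟨x, hx, h4⟩ := h2 i hi
    exact ⟨x, hx.lt, hx, h4⟩
  · rintro ⟨h1, h2, h3⟩
    refine ⟨fun x hx => h1 x hx.lt hx, fun i hi => ?_, fun x y i j hx hy hi hj =>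
      h3 x hx.lt y hy.lt i hi j hj hx hy⟩
    obtain ⟨x, -, hx, h4⟩ := h2 i hi
    exact ⟨x, hx, h4⟩

/-- The set of copies of a finite graph exists (in every model of `RCA₀`). -/
theorem copies_mem {E : Set M.N} (hE : E ∈ M.S) (s e : M.N) : {w | IsCopy E s e w} ∈ M.S := by
  obtain ⟨B, hB, hB2⟩ := exists_bound (M := M)
  have hrec : Rec fun w : M.N => IsCode w ∧ ∃ f, f < B (pair w s) + 1 ∧ (IsCode f ∧
      ((∀ x, x < w → (InCode x w → ∃ i, i < s ∧ InCode (pair x i) f)) ∧
      ((∀ i, i < s → ∃ x, x < w ∧ (InCode x w ∧ InCode (pair x i) f)) ∧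
      (∀ x, x < w → ∀ y, y < w → ∀ i, i < s → ∀ j, j < s → (InCode x w → (InCode y w →
        (InCode (pair x i) f → (InCode (pair y j) f → ((x = y ↔ i = j) ∧
          (Adj E x y ↔ InCode (pair i j) e)))))))))) := by
    repeat' with_reducible first
      | apply Rec.inCode | apply Rec.isCode | apply Rec.adj hE | apply RecF.comp hB
      | exact RecF.id' | exact RecF.const _ | assumption | apply RecF.fst | apply RecF.snd
      | apply RecF.add | apply RecF.mul | apply RecF.pair | apply Rec.bex | apply Rec.ball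
      | apply Rec.and | apply Rec.or | apply Rec.not | apply Rec.iff | apply Rec.imp
      | apply Rec.eq | apply Rec.lt | apply Rec.le | apply Rec.dvd | apply RecF.prod
  refine (hrec.congr fun w => ?_).set
  unfold IsCopy
  refine and_congr_right fun hw => ?_
  constructor
  · rintro ⟨f, hf, hiso⟩
    obtain ⟨f', hf', hle, hmem⟩ := hB2 {z | InCode z f}
      (Rec.inCode RecF.id' (RecF.const f)).set (pair w s)
    refine ⟨f', (n_lt_add_one_iff _ _).mpr hle, hf', ?_⟩
    rw [← isIso_iff_bdd]
    have hm : ∀ x i, InCode x w → i < s → (InCode (pair x i) f' ↔ InCode (pair x i) f) := by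
      intro x i hx hi
      rw [hmem]
      exact ⟨fun h => h.1, fun h => ⟨h, pair_lt_pair hx.lt hi⟩⟩
    obtain ⟨h1, h2, h3⟩ := hiso
    refine ⟨fun x hx => ?_, fun i hi => ?_, fun x y i j hx hy hi hj h4 h5 => ?_⟩
    · obtain ⟨i, hi, h4⟩ := h1 x hx
      exact ⟨i, hi, (hm x i hx hi).mpr h4⟩
    · obtain ⟨x, hx, h4⟩ := h2 i hi
      exact ⟨x, hx, (hm x i hx hi).mpr h4⟩
    · exact h3 x y i j hx hy hi hj ((hm x i hx hi).mp h4) ((hm y j hy hj).mp h5)
  · rintro ⟨f, -, hf, hiso⟩
    rw [← isIso_iff_bdd] at hiso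
    exact ⟨f, hf, hiso⟩

/-! ### a computable copy of the Rado graph -/

theorem adj_stdRado (x y : M.N) : Adj (StdRado M) x y ↔ (InCode x y ∨ InCode y x) := by
  constructor
  · rintro ⟨x', y', h1, h2⟩
    obtain ⟨rfl, rfl⟩ := pair_inj h1
    exact h2
  · intro h
    exact ⟨x, y, rfl, h⟩

theorem stdRado_mem : StdRado M ∈ M.S := by
  have hrec : Rec fun z : M.N => ∃ x, x < z + 1 ∧ ∃ y, y < z + 1 ∧
      (z = pair x y ∧ (InCode x y ∨ InCode y x)) := by
    repeat' with_reducible first
      | apply Rec.inCode | exact RecF.id' | exact RecF.const _ | assumption | apply RecF.fst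
      | apply RecF.snd | apply RecF.add | apply RecF.mul | apply RecF.pair | apply Rec.bex
      | apply Rec.ball | apply Rec.and | apply Rec.or | apply Rec.not | apply Rec.iff
      | apply Rec.imp | apply Rec.eq | apply Rec.lt | apply Rec.le | apply Rec.dvd
      | apply RecF.prod
  have h := (hrec.congr (Q := fun z => z ∈ StdRado M) fun z => ?_).set
  · exact h
  · constructor
    · rintro ⟨x, y, h1, h2⟩
      subst h1
      exact ⟨x, (n_lt_add_one_iff _ _).mpr (le_pair_left _ _), y,
        (n_lt_add_one_iff _ _).mpr (le_pair_right _ _), rfl, h2⟩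
    · rintro ⟨x, -, y, -, h1, h2⟩
      exact ⟨x, y, h1, h2⟩

theorem stdRado_isGraph : IsGraph (StdRado M) := by
  constructor
  · intro x h
    rw [adj_stdRado] at h
    rcases h with h | h
    · exact absurd h.lt (lt_irrefl _)
    · exact absurd h.lt (lt_irrefl _)
  · intro x y h
    rw [adj_stdRado] at h ⊢
    exact h.symm

theorem stdRado_isRado : IsRado (StdRado M) Set.univ := by
  intro u v hu hv _ _ huv
  obtain ⟨z, -, hz, hz2⟩ := exists_triple {i | InCode i u}
    (Rec.inCode RecF.id' (RecF.const u)).set (u + v)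
  have hbig : ∀ i, InCode i u ∨ InCode i v → i < z := by
    rintro i (h | h)
    · exact (h.lt.trans_le le_self_add).trans_le hz
    · exact (h.lt.trans_le le_add_self).trans_le hz
  refine ⟨z, Set.mem_univ _, fun h => lt_irrefl _ (hbig z (Or.inl h)),
    fun h => lt_irrefl _ (hbig z (Or.inr h)), fun i hi => ?_, fun i hi => ?_⟩
  · rw [adj_stdRado]
    exact Or.inr ((hz2 i).mpr ⟨hi, hi.lt.trans_le le_self_add⟩)
  · rw [adj_stdRado]
    rintro (h | h)
    · exact absurd h.lt (not_lt.mpr (hbig i (Or.inr hi)).le)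
    · exact huv i ⟨((hz2 i).mp h).1, hi⟩

end Pool.Agent.Helper63.RCA
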