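import Mathlib
import Pool.Agent.Helper63.RCA.Rado

/-!
# `RRP_k ↔ RRP_{k+1}` inside a model of `RCA₀`
-/

set_option autoImplicit false
set_option linter.unreachableTactic false
set_option linter.unusedTactic false

namespace Pool.Agent.Helper63.RCA

variable {M : L2Structure} [hM : RCA0 M]

omit hM in
theorem rrp_down {E : Set M.N} {k : ℕ} (h : RRP M (k + 1) E) : RRP M k E := by
  intro s e hse c hc hcol hbdd
  refine h s e hse c hc hcol ?_
  intro y
  rintro ⟨t, ht, ht2⟩
  exact hbdd y ⟨fun i => t (Fin.castSucc i), fun i j hij => Fin.castSucc_injective _ (ht hij),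
    fun i => ht2 _⟩

/-- the color of an element, as a total function -/
theorem exists_color {D c : Set M.N} (hD : D ∈ M.S) (hc : c ∈ M.S) (hcol : IsColoring D c) :
    ∃ C : M.N → M.N, RecF C ∧ ∀ w y, pair w y ∈ c ↔ (w ∈ D ∧ y = C w) := by
  obtain ⟨C, hC, hC2⟩ := Rec.mu (α := M.N) (P := fun w y => w ∈ D → pair w y ∈ c)
    (by
      repeat' with_reducible first
        | apply Rec.mem hD | apply Rec.mem hc | exact RecF.id' | exact RecF.const _ | assumption
        | apply RecF.fst | apply RecF.snd | apply RecF.add | apply RecF.mul | apply RecF.pair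
        | apply Rec.bex | apply Rec.ball | apply Rec.and | apply Rec.or | apply Rec.not
        | apply Rec.iff | apply Rec.imp | apply Rec.eq | apply Rec.lt | apply Rec.le
        | apply Rec.dvd | apply RecF.prod)
    (by
      intro w
      by_cases hw : w ∈ D
      · obtain ⟨y, hy⟩ := hcol.2.1 w hw
        exact ⟨y, fun _ => hy⟩
      · exact ⟨0, fun h => absurd h hw⟩)
  refine ⟨C, hC, fun w y => ?_⟩
  constructor
  · intro h
    obtain ⟨w', hw', y', h1⟩ := hcol.1 _ h
    obtain ⟨rfl, rfl⟩ := pair_inj h1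
    exact ⟨hw', hcol.2.2 w y (C w) h ((hC2 w).1 hw')⟩
  · rintro ⟨hw, rfl⟩
    exact (hC2 w).1 hw

/-- a coloring from a recursive function -/
theorem exists_coloring {D : Set M.N} (hD : D ∈ M.S) {g : M.N → M.N} (hg : RecF g) :
    ∃ c ∈ M.S, IsColoring D c ∧ ∀ w y, pair w y ∈ c ↔ (w ∈ D ∧ y = g w) := by
  have hrec : Rec fun z : M.N => ∃ w, w < z + 1 ∧ ∃ y, y < z + 1 ∧
      (z = pair w y ∧ (w ∈ D ∧ y = g w)) := by
    repeat' with_reducible first
      | apply Rec.mem hD | apply RecF.comp hg | exact RecF.id' | exact RecF.const _ | assumption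
      | apply RecF.fst | apply RecF.snd | apply RecF.add | apply RecF.mul | apply RecF.pair
      | apply Rec.bex | apply Rec.ball | apply Rec.and | apply Rec.or | apply Rec.not
      | apply Rec.iff | apply Rec.imp | apply Rec.eq | apply Rec.lt | apply Rec.le
      | apply Rec.dvd | apply RecF.prod
  have hmem : ∀ w y, pair w y ∈ {z : M.N | ∃ w, w < z + 1 ∧ ∃ y, y < z + 1 ∧
      (z = pair w y ∧ (w ∈ D ∧ y = g w))} ↔ (w ∈ D ∧ y = g w) := by
    intro w y
    constructor
    · rintro ⟨w', -, y', -, h1, h2⟩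
      obtain ⟨rfl, rfl⟩ := pair_inj h1
      exact h2
    · intro h
      exact ⟨w, (n_lt_add_one_iff _ _).mpr (le_pair_left _ _), y,
        (n_lt_add_one_iff _ _).mpr (le_pair_right _ _), rfl, h⟩
  refine ⟨_, hrec.set, ⟨?_, ?_, ?_⟩, hmem⟩
  · rintro z ⟨w, -, y, -, h1, h2⟩
    exact ⟨w, h2.1, y, h1⟩
  · intro w hw
    exact ⟨g w, (hmem w (g w)).mpr ⟨hw, rfl⟩⟩
  · intro w y y' h1 h2
    rw [((hmem w y).mp h1).2, ((hmem w y').mp h2).2]

/-- Reduction of the bound: if `c` is `(k+1)`-bounded, then some `2`-bounded coloring `g` is such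
that on every set where `g` is injective `c` is `k`-bounded. -/
theorem exists_two_bounded {k : ℕ} (hk : 2 ≤ k) {D c : Set M.N} (hD : D ∈ M.S) (hc : c ∈ M.S)
    (hcol : IsColoring D c) (hbdd : IsBdd (k + 1) c) :
    ∃ g ∈ M.S, IsColoring D g ∧ IsBdd k g ∧
      ∀ A : Set M.N, (∀ w w' y, w ∈ A → w' ∈ A → pair w y ∈ g → pair w' y ∈ g → w = w') →
        ∀ y, ¬ ∃ t : Fin (k + 1) → M.N, Function.Injective t ∧ ∀ i, t i ∈ A ∧ pair (t i) y ∈ c := by
  obtain ⟨C, hC, hCm⟩ := exists_color hD hc hcol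
  let Only : M.N → M.N → Prop := fun w y => y < w ∧ (y ∈ D ∧ (C y = C w ∧
    ∀ u, u < w → (u ∈ D → (C u = C w → u = y))))
  have hOnly : ∀ {α' : Type} [Cod M α'] {F1 : α' → M.N} {F2 : α' → M.N}, RecF F1 → RecF F2 →
      Rec fun a => Only (F1 a) (F2 a) := by
    intro α' _ F1 F2 h1 h2
    have : Rec fun p : M.N × M.N => Only p.1 p.2 := by
      repeat' with_reducible first
        | apply Rec.mem hD | apply RecF.comp hC | exact RecF.id' | exact RecF.const _
        | assumption | apply RecF.fst | apply RecF.snd | apply RecF.add | apply RecF.mul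
        | apply RecF.pair | apply Rec.bex | apply Rec.ball | apply Rec.and | apply Rec.or
        | apply Rec.not | apply Rec.iff | apply Rec.imp | apply Rec.eq | apply Rec.lt
        | apply Rec.le | apply Rec.dvd | apply RecF.prod
    exact this.comp (h1.prod h2)
  have huniq : ∀ w y y', Only w y → Only w y' → y = y' := by
    rintro w y y' ⟨h1, h2, h3, h4⟩ ⟨h1', h2', h3', h4'⟩
    exact h4' y h1 h2 h3
  obtain ⟨g, hg, hg2⟩ := Rec.mu (α := M.N)
    (P := fun w y => Only w y ∨ (y = w ∧ ¬ ∃ u, u < w ∧ Only w u))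
    (by
      repeat' with_reducible first
        | apply hOnly | exact RecF.id' | exact RecF.const _ | assumption | apply RecF.fst
        | apply RecF.snd | apply RecF.add | apply RecF.mul | apply RecF.pair | apply Rec.bex
        | apply Rec.ball | apply Rec.and | apply Rec.or | apply Rec.not | apply Rec.iff
        | apply Rec.imp | apply Rec.eq | apply Rec.lt | apply Rec.le | apply Rec.dvd
        | apply RecF.prod)
    (by
      intro w
      by_cases h : ∃ u, u < w ∧ Only w u
      · obtain ⟨u, -, hu⟩ := h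
        exact ⟨u, Or.inl hu⟩
      · exact ⟨w, Or.inr ⟨rfl, h⟩⟩)
  have hg_only : ∀ w y, Only w y → g w = y := by
    intro w y h
    rcases (hg2 w).1 with h1 | h1
    · exact huniq w _ _ h1 h
    · exact absurd ⟨y, h.1, h⟩ h1.2
  have hg_self : ∀ w, (¬ ∃ u, Only w u) → g w = w := by
    intro w h
    rcases (hg2 w).1 with h1 | h1
    · exact absurd ⟨_, h1⟩ h
    · exact h1.1
  have hg_cases : ∀ w, g w = w ∨ Only w (g w) := by
    intro w
    rcases (hg2 w).1 with h1 | h1
    · exact Or.inr h1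
    · exact Or.inl h1.1
  obtain ⟨cg, hcg, hcol', hmem⟩ := exists_coloring hD hg
  refine ⟨cg, hcg, hcol', ?_, ?_⟩
  · -- `2`-bounded, hence `k`-bounded
    rintro y ⟨t, ht, ht2⟩
    simp only [hmem] at ht2
    have hne : ∀ i j : Fin (k + 1), i ≠ j → t i ≠ y → t j ≠ y → False := by
      have aux : ∀ i j : Fin (k + 1), t i < t j → t i ≠ y → t j ≠ y → False := by
        intro i j hij hi hj
        have h1 : Only (t i) y := by
          rcases hg_cases (t i) with h | h
          · exact absurd (h.symm.trans (ht2 i).2.symm) hi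
          · rwa [← (ht2 i).2] at h
        have h2 : Only (t j) y := by
          rcases hg_cases (t j) with h | h
          · exact absurd (h.symm.trans (ht2 j).2.symm) hj
          · rwa [← (ht2 j).2] at h
        have h3 := h2.2.2.2 (t i) hij (ht2 i).1 (h1.2.2.1.symm.trans h2.2.2.1)
        exact hi h3
      intro i j hij hi hj
      rcases lt_trichotomy (t i) (t j) with h | h | h
      · exact aux i j h hi hj
      · exact hij (ht h)
      · exact aux j i h hj hi
    let i0 : Fin (k + 1) := ⟨0, by omega⟩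
    let i1 : Fin (k + 1) := ⟨1, by omega⟩
    let i2 : Fin (k + 1) := ⟨2, by omega⟩
    have h01 : i0 ≠ i1 := by simp [i0, i1]
    have h02 : i0 ≠ i2 := by simp [i0, i2]
    have h12 : i1 ≠ i2 := by simp [i1, i2]
    by_cases h0 : t i0 = y
    · have h1 : t i1 ≠ y := fun h => h01 (ht (h0.trans h.symm))
      have h2 : t i2 ≠ y := fun h => h02 (ht (h0.trans h.symm))
      exact hne _ _ h12 h1 h2
    · by_cases h1 : t i1 = y
      · have h2 : t i2 ≠ y := fun h => h12 (ht (h1.trans h.symm))
        exact hne _ _ h02 h0 h2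
      · exact hne _ _ h01 h0 h1
  · intro A hA y
    rintro ⟨t, ht, ht2⟩
    -- all elements of color `y` are among the `t i`
    have hall : ∀ w, pair w y ∈ c → ∃ i, w = t i := by
      intro w hw
      by_contra hcon
      push Not at hcon
      refine hbdd y ⟨Fin.cons w t, ?_, ?_⟩
      · rw [Fin.cons_injective_iff]
        refine ⟨?_, ht⟩
        rintro ⟨i, hi⟩
        exact hcon i hi.symm
      · intro i
        refine Fin.cases ?_ (fun j => ?_) i
        · simpa using hw
        · simpa using (ht2 j).2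
    classical
    let T : Finset M.N := Finset.univ.image t
    have hT : T.card = k + 1 := by
      rw [Finset.card_image_of_injective _ ht, Finset.card_univ, Fintype.card_fin]
    have hTne : T.Nonempty := Finset.card_pos.mp (by omega)
    let a := T.min' hTne
    have haT : a ∈ T := T.min'_mem hTne
    have hTe : (T.erase a).Nonempty := by
      apply Finset.card_pos.mp
      rw [Finset.card_erase_of_mem haT, hT]
      omega
    let b := (T.erase a).min' hTe
    have hbT : b ∈ T.erase a := (T.erase a).min'_mem hTe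
    have hbT' : b ∈ T := Finset.mem_of_mem_erase hbT
    have hab : a < b := lt_of_le_of_ne (T.min'_le b hbT') (Finset.ne_of_mem_erase hbT).symm
    have hmemT : ∀ w, w ∈ T ↔ ∃ i, t i = w := by
      intro w
      simp [T]
    have hTc : ∀ w ∈ T, w ∈ A ∧ w ∈ D ∧ y = C w := by
      intro w hw
      obtain ⟨i, rfl⟩ := (hmemT w).mp hw
      exact ⟨(ht2 i).1, (hCm _ _).mp (ht2 i).2⟩
    have hcT : ∀ w, w ∈ D → C w = y → w ∈ T := by
      intro w h1 h2
      obtain ⟨i, hi⟩ := hall w ((hCm _ _).mpr ⟨h1, h2.symm⟩)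
      exact (hmemT w).mpr ⟨i, hi.symm⟩
    obtain ⟨haA, haD, haC⟩ := hTc a haT
    obtain ⟨hbA, hbD, hbC⟩ := hTc b hbT'
    have hga : g a = a := by
      apply hg_self
      rintro ⟨u, h1, h2, h3, -⟩
      have := T.min'_le u (hcT u h2 (h3.trans haC.symm))
      exact absurd h1 (not_lt.mpr this)
    have hgb : g b = a := by
      apply hg_only
      refine ⟨hab, haD, haC.symm.trans hbC, fun u hu huD huC => ?_⟩
      by_contra hne
      have : u ∈ T.erase a := Finset.mem_erase.mpr ⟨hne, hcT u huD (huC.trans hbC.symm)⟩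
      exact absurd hu (not_lt.mpr ((T.erase a).min'_le u this))
    have := hA a b a haA hbA ((hmem _ _).mpr ⟨haD, hga.symm⟩) ((hmem _ _).mpr ⟨hbD, hgb.symm⟩)
    exact hab.ne this

theorem rrp_up {E : Set M.N} (hE : E ∈ M.S) (hG : IsGraph E) {k : ℕ} (hk : 2 ≤ k)
    (h : RRP M k E) : RRP M (k + 1) E := by
  intro s e hse c hc hcol hbdd
  obtain ⟨D, hDdef⟩ : ∃ D : Set M.N, D = {w | IsCopy E s e w} := ⟨_, rfl⟩
  have hD : D ∈ M.S := by
    rw [hDdef]
    exact copies_mem hE s e
  have hDm : ∀ w, w ∈ D ↔ IsCopy E s e w := by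
    intro w
    rw [hDdef]
    rfl
  rw [← hDdef] at hcol
  obtain ⟨C, hC, hCm⟩ := exists_color hD hc hcol
  -- first application: a Rado graph `X` on which `c` is `k`-bounded
  obtain ⟨g, hg, hgcol, hgbdd, hgA⟩ := exists_two_bounded hk hD hc hcol hbdd
  obtain ⟨X, hX, -, hXR, hXinj⟩ := h s e hse g hg (hDdef ▸ hgcol) hgbdd
  have hcX : ∀ y, ¬ ∃ t : Fin (k + 1) → M.N, Function.Injective t ∧
      ∀ i, (∀ j, InCode j (t i) → j ∈ X) ∧ pair (t i) y ∈ c :=
    hgA {w | ∀ j, InCode j w → j ∈ X} (fun w w' y h1 h2 => hXinj w w' y h1 h2)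
  -- copy `X` back to all of `N`
  obtain ⟨F, hF, hFmono, hFX, hFadj⟩ := exists_embedding hE hG hX hXR
  have hFinj : ∀ i j, F i = F j → i = j := by
    intro i j h
    rcases lt_trichotomy i j with h1 | h1 | h1
    · exact absurd h (hFmono i j h1).ne
    · exact h1
    · exact absurd h (hFmono j i h1).ne'
  have hFge : ∀ i, i ≤ F i := by
    apply Rec.ind
    · repeat' with_reducible first
        | apply RecF.comp hF | exact RecF.id' | exact RecF.const _ | assumption | apply RecF.fst
        | apply RecF.snd | apply RecF.add | apply RecF.mul | apply RecF.pair | apply Rec.bex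
        | apply Rec.ball | apply Rec.and | apply Rec.or | apply Rec.not | apply Rec.iff
        | apply Rec.imp | apply Rec.eq | apply Rec.lt | apply Rec.le | apply Rec.dvd
        | apply RecF.prod
    · exact zero_le
    · intro n ih
      rw [n_add_one_le_iff]
      exact ih.trans_lt (hFmono _ _ ((n_lt_add_one_iff _ _).mpr le_rfl))
  -- images and preimages of coded finite sets
  obtain ⟨im, him, him2⟩ := exists_mkCode (α := M.N)
    (P := fun w j => ∃ i, i < w ∧ (InCode i w ∧ j = F i))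
    (by
      repeat' with_reducible first
        | apply Rec.inCode | apply RecF.comp hF | exact RecF.id' | exact RecF.const _
        | assumption | apply RecF.fst | apply RecF.snd | apply RecF.add | apply RecF.mul
        | apply RecF.pair | apply Rec.bex | apply Rec.ball | apply Rec.and | apply Rec.or
        | apply Rec.not | apply Rec.iff | apply Rec.imp | apply Rec.eq | apply Rec.lt
        | apply Rec.le | apply Rec.dvd | apply RecF.prod)
    (B := fun w => F w) hF
  have him3 : ∀ w j, InCode j (im w) ↔ ∃ i, InCode i w ∧ j = F i := by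
    intro w j
    rw [(him2 w).2 j]
    constructor
    · rintro ⟨⟨i, -, h1, h2⟩, -⟩
      exact ⟨i, h1, h2⟩
    · rintro ⟨i, h1, rfl⟩
      exact ⟨⟨i, h1.lt, h1, rfl⟩, hFmono _ _ h1.lt⟩
  obtain ⟨pre, hpre, hpre2⟩ := exists_mkCode (α := M.N) (P := fun w i => InCode (F i) w)
    (by
      repeat' with_reducible first
        | apply Rec.inCode | apply RecF.comp hF | exact RecF.id' | exact RecF.const _
        | assumption | apply RecF.fst | apply RecF.snd | apply RecF.add | apply RecF.mul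
        | apply RecF.pair | apply Rec.bex | apply Rec.ball | apply Rec.and | apply Rec.or
        | apply Rec.not | apply Rec.iff | apply Rec.imp | apply Rec.eq | apply Rec.lt
        | apply Rec.le | apply Rec.dvd | apply RecF.prod)
    (B := fun w => w) RecF.id'
  have hpre3 : ∀ w i, InCode i (pre w) ↔ InCode (F i) w := by
    intro w i
    rw [(hpre2 w).2 i]
    exact ⟨fun h => h.1, fun h => ⟨h, (hFge i).trans_lt h.lt⟩⟩
  have himD : ∀ w, w ∈ D → im w ∈ D := by
    intro w hw
    rw [hDm] at hw ⊢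
    exact (isCopy_image hF hFmono hFadj hw.1 (him2 w).1 (him3 w)).mp hw
  have himinj : ∀ w w', w ∈ D → w' ∈ D → im w = im w' → w = w' := by
    intro w w' hw hw' h
    rw [hDm] at hw hw'
    apply IsCode.ext hw.1 hw'.1
    have aux : ∀ u u', im u = im u' → ∀ i, InCode i u → InCode i u' := by
      intro u u' hu i hi
      have h1 : InCode (F i) (im u) := (him3 u _).mpr ⟨i, hi, rfl⟩
      rw [hu] at h1
      obtain ⟨j, hj, h2⟩ := (him3 u' _).mp h1
      rw [hFinj _ _ h2]
      exact hj
    exact fun i => ⟨aux w w' h i, aux w' w h.symm i⟩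
  -- the pulled back coloring
  obtain ⟨c', hc', hcol', hc'm⟩ := exists_coloring hD (hC.comp him)
  have hbdd' : IsBdd k c' := by
    rintro y ⟨t, ht, ht2⟩
    refine hcX y ⟨fun i => im (t i), fun i j hij => ?_, fun i => ⟨fun j hj => ?_, ?_⟩⟩
    · exact ht (himinj _ _ ((hc'm _ _).mp (ht2 i)).1 ((hc'm _ _).mp (ht2 j)).1 hij)
    · obtain ⟨i', -, rfl⟩ := (him3 _ _).mp hj
      exact hFX i'
    · obtain ⟨h1, h2⟩ := (hc'm _ _).mp (ht2 i)
      exact (hCm _ _).mpr ⟨himD _ h1, h2⟩
  -- second application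
  obtain ⟨Y, hY, hYinf, hYR, hYinj⟩ := h s e hse c' hc' (hDdef ▸ hcol') hbdd'
  have hZrec : Rec fun z : M.N => ∃ i, i < z + 1 ∧ (i ∈ Y ∧ z = F i) := by
    repeat' with_reducible first
      | apply Rec.mem hY | apply RecF.comp hF | exact RecF.id' | exact RecF.const _ | assumption
      | apply RecF.fst | apply RecF.snd | apply RecF.add | apply RecF.mul | apply RecF.pair
      | apply Rec.bex | apply Rec.ball | apply Rec.and | apply Rec.or | apply Rec.not
      | apply Rec.iff | apply Rec.imp | apply Rec.eq | apply Rec.lt | apply Rec.le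
      | apply Rec.dvd | apply RecF.prod
  have hZm : ∀ z, z ∈ {z : M.N | ∃ i, i < z + 1 ∧ (i ∈ Y ∧ z = F i)} ↔ ∃ i ∈ Y, z = F i := by
    intro z
    constructor
    · rintro ⟨i, -, h1, h2⟩
      exact ⟨i, h1, h2⟩
    · rintro ⟨i, h1, rfl⟩
      exact ⟨i, (n_lt_add_one_iff _ _).mpr (hFge i), h1, rfl⟩
  have hpreY : ∀ w, (∀ i, InCode i w → ∃ j ∈ Y, i = F j) → ∀ i, InCode i (pre w) → i ∈ Y := by
    intro w hw i hi
    obtain ⟨j, hj, h1⟩ := hw _ ((hpre3 w i).mp hi)
    rw [hFinj _ _ h1]
    exact hj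
  have hback : ∀ w, (∀ i, InCode i w → ∃ j ∈ Y, i = F j) →
      ∀ j, InCode j w ↔ ∃ i, InCode i (pre w) ∧ j = F i := by
    intro w hw j
    constructor
    · intro hj
      obtain ⟨i, -, rfl⟩ := hw j hj
      exact ⟨i, (hpre3 w i).mpr hj, rfl⟩
    · rintro ⟨i, hi, rfl⟩
      exact (hpre3 w i).mp hi
  refine ⟨_, hZrec.set, ?_, ?_, ?_⟩
  · intro b
    obtain ⟨i, hi, hbi⟩ := hYinf b
    exact ⟨F i, (hZm _).mpr ⟨i, hi, rfl⟩, hbi.trans_le (hFge i)⟩
  · intro u v hu hv huZ hvZ huv
    have huZ' : ∀ i, InCode i u → ∃ j ∈ Y, i = F j := fun i hi => (hZm i).mp (huZ i hi)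
    have hvZ' : ∀ i, InCode i v → ∃ j ∈ Y, i = F j := fun i hi => (hZm i).mp (hvZ i hi)
    obtain ⟨z, hz, hzu, hzv, hzu', hzv'⟩ := hYR (pre u) (pre v) (hpre2 u).1 (hpre2 v).1
      (hpreY u huZ') (hpreY v hvZ') (fun i hi => huv (F i) ⟨(hpre3 u i).mp hi.1,
        (hpre3 v i).mp hi.2⟩)
    refine ⟨F z, (hZm _).mpr ⟨z, hz, rfl⟩, fun h1 => hzu ((hpre3 u z).mpr h1),
      fun h1 => hzv ((hpre3 v z).mpr h1), fun j hj => ?_, fun j hj => ?_⟩
    · obtain ⟨i, -, rfl⟩ := huZ' j hj
      exact (hFadj z i).mpr (hzu' i ((hpre3 u i).mpr hj))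
    · obtain ⟨i, -, rfl⟩ := hvZ' j hj
      exact fun h1 => hzv' i ((hpre3 v i).mpr hj) ((hFadj z i).mp h1)
  · intro w w' y hw hw' hwc hwc'
    have hwZ : ∀ i, InCode i w → ∃ j ∈ Y, i = F j := fun i hi => (hZm i).mp (hw i hi)
    have hwZ' : ∀ i, InCode i w' → ∃ j ∈ Y, i = F j := fun i hi => (hZm i).mp (hw' i hi)
    obtain ⟨hwD, hwy⟩ := (hCm _ _).mp hwc
    obtain ⟨hwD', hwy'⟩ := (hCm _ _).mp hwc'
    have hcopy : ∀ u, u ∈ D → (∀ i, InCode i u → ∃ j ∈ Y, i = F j) →
        pre u ∈ D ∧ im (pre u) = u := by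
      intro u hu huZ
      have hu' := hu
      rw [hDm] at hu'
      constructor
      · rw [hDm]
        exact (isCopy_image hF hFmono hFadj (hpre2 u).1 hu'.1 (hback u huZ)).mpr hu'
      · apply IsCode.ext (him2 _).1 hu'.1
        intro i
        rw [him3, hback u huZ]
    obtain ⟨h1, h2⟩ := hcopy w hwD hwZ
    obtain ⟨h1', h2'⟩ := hcopy w' hwD' hwZ'
    have h3 := hYinj (pre w) (pre w') y (hpreY w hwZ) (hpreY w' hwZ')
      ((hc'm _ _).mpr ⟨h1, by rw [h2]; exact hwy⟩) ((hc'm _ _).mpr ⟨h1', by rw [h2']; exact hwy'⟩)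
    rw [← h2, ← h2', h3]

end Pool.Agent.Helper63.RCA
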